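import Pool.Agent.Lib.KP.Defs

/-!
# KV (MP_64edc4_ag), part B: Siegel domains of the second kind with cocompact groups, definitions
-/

set_option autoImplicit false

open Set Filter Topology Metric

namespace KVB

open KP

universe u

/-! ## Siegel domains -/

/-- The space `ℂᵐ × ℂᵏ`. -/
abbrev Vs (m k : ℕ) := Cn m × Cn k

/-- The `ℂᵏ`-valued sesquilinear form: linear in `z`, conjugate linear in `z'`. -/
noncomputable def hf {m k : ℕ} (F : Fin k → Matrix (Fin m) (Fin m) ℂ) (z z' : Cn m) : Cn k :=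
  fun j => ∑ a, ∑ b, F j a b * z a * (starRingEnd ℂ) (z' b)

/-- The real vector `x` as a complex vector. -/
def cx {k : ℕ} (x : Fin k → ℝ) : Cn k := fun j => (x j : ℂ)

/-- The imaginary part. -/
def imv {k : ℕ} (w : Cn k) : Fin k → ℝ := fun j => (w j).im

/-- The real part. -/
def rev {k : ℕ} (w : Cn k) : Fin k → ℝ := fun j => (w j).re

/-- The data of a Siegel domain of the second kind: a hermitian form with values in the closure of
the open convex cone `Om` without lines. -/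
structure Sie {m k : ℕ} (F : Fin k → Matrix (Fin m) (Fin m) ℂ) (Om : Set (Fin k → ℝ)) : Prop where
  herm : ∀ j a b, F j b a = (starRingEnd ℂ) (F j a b)
  opn : IsOpen Om
  nem : Om.Nonempty
  cvx : Convex ℝ Om
  cone : ∀ y ∈ Om, ∀ t : ℝ, 0 < t → t • y ∈ Om
  pnt : ∀ y : Fin k → ℝ, y ∈ closure Om → -y ∈ closure Om → y = 0
  psd : ∀ z : Cn m, rev (hf F z z) ∈ closure Om
  pd : ∀ z : Cn m, hf F z z = 0 → z = 0

/-- The Siegel domain. -/
def SD {m k : ℕ} (F : Fin k → Matrix (Fin m) (Fin m) ℂ) (Om : Set (Fin k → ℝ)) : Set (Vs m k) :=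
  {p | imv p.2 - rev (hf F p.1 p.1) ∈ Om}

/-- The Siegel domain as a subset of `Cn (m + k)`. -/
def SDn {m k : ℕ} (F : Fin k → Matrix (Fin m) (Fin m) ℂ) (Om : Set (Fin k → ℝ)) :
    Set (Cn (m + k)) :=
  {p | ((fun i => p (Fin.castAdd k i), fun j => p (Fin.natAdd m j)) : Vs m k) ∈ SD F Om}

/-! ## Automorphisms, invariant metrics, complete fields -/

variable {V : Type} [NormedAddCommGroup V] [NormedSpace ℂ V]

/-- The holomorphic functions on `D` which are bounded by one. -/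
def UF (D : Set V) : Set (V → ℂ) := {f | DifferentiableOn ℂ f D ∧ ∀ x ∈ D, ‖f x‖ ≤ 1}

/-- The Caratheodory type distance. -/
noncomputable def cd (D : Set V) (x y : V) : ℝ := sSup ((fun f : V → ℂ => ‖f x - f y‖) '' UF D)

/-- The Caratheodory type length of the tangent vector `v` at `x`. -/
noncomputable def cn (D : Set V) (x v : V) : ℝ :=
  sSup ((fun f : V → ℂ => ‖fderiv ℂ f x v‖) '' UF D)

/-- The holomorphic maps from `D` to the unit ball of `V`. -/
def UM (D : Set V) : Set (V → V) := {f | DifferentiableOn ℂ f D ∧ ∀ x ∈ D, ‖f x‖ ≤ 1}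

/-- The absolute value of the real determinant. -/
noncomputable def rdet (L : V →L[ℂ] V) : ℝ := |(L.restrictScalars ℝ).det|

/-- The Caratheodory type volume density. -/
noncomputable def dens (D : Set V) (x : V) : ℝ :=
  sSup ((fun f : V → V => rdet (fderiv ℂ f x)) '' UM D)

/-- `g` is an automorphism of `D` with the inverse `h`. -/
structure Aut2 (D : Set V) (g h : V → V) : Prop where
  dg : DifferentiableOn ℂ g D
  dh : DifferentiableOn ℂ h D
  mg : MapsTo g D D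
  mh : MapsTo h D D
  hg : ∀ x ∈ D, h (g x) = x
  gh : ∀ x ∈ D, g (h x) = x

/-- `φ` is the flow (a one-parameter group of automorphisms of `D`) of the vector field `X`. -/
structure Flow (D : Set V) (X : V → V) (φ : ℝ → V → V) : Prop where
  dif : ∀ t, DifferentiableOn ℂ (φ t) D
  maps : ∀ t, MapsTo (φ t) D D
  zero : ∀ x ∈ D, φ 0 x = x
  add : ∀ s t, ∀ x ∈ D, φ (s + t) x = φ s (φ t x)
  der : ∀ x ∈ D, ∀ t : ℝ, HasDerivAt (fun s => φ s x) (X (φ t x)) t

/-- Complete holomorphic vector fields. -/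
def Cpl (D : Set V) (X : V → V) : Prop := DifferentiableOn ℂ X D ∧ ∃ φ, Flow D X φ

/-- The transport of the vector field `X` by the automorphism `g` with the inverse `h`. -/
noncomputable def Ad (g h : V → V) (X : V → V) : V → V := fun x => fderiv ℂ g (h x) (X (h x))

/-- The bracket of vector fields: `X (Y) - Y (X)`. -/
noncomputable def Br (X Y : V → V) : V → V := fun x => fderiv ℂ Y x (X x) - fderiv ℂ X x (Y x)

/-- The properties of the domain which are used in the soft part. -/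
structure Hyp (D : Set V) : Prop where
  opn : IsOpen D
  conn : IsPreconnected D
  nem : D.Nonempty
  bc : ∃ r0 > 0, ∀ Q ⊆ D, IsCompact Q → ∃ Q' ⊆ D, IsCompact Q' ∧
    ∀ x ∈ Q, ∀ y ∈ D, cd D x y ≤ r0 → y ∈ Q'
  lo : ∀ Q ⊆ D, IsCompact Q → ∃ c > 0, ∀ x ∈ Q, ∀ y ∈ Q, c * ‖x - y‖ ≤ cd D x y
  nd : ∀ x ∈ D, ∃ f ∈ UM D, rdet (fderiv ℂ f x) ≠ 0

/-- A properly discontinuous cocompact action of the group `Γ` on `D` by holomorphic maps. -/
structure GAct {Γ : Type u} [Group Γ] (D : Set V) (ρ : Γ → V → V) : Prop where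
  dif : ∀ γ, DifferentiableOn ℂ (ρ γ) D
  maps : ∀ γ, MapsTo (ρ γ) D D
  one : ∀ x ∈ D, ρ 1 x = x
  mul : ∀ γ γ', ∀ x ∈ D, ρ (γ * γ') x = ρ γ (ρ γ' x)
  pd : ∀ Q ⊆ D, IsCompact Q → {γ | (ρ γ '' Q ∩ Q).Nonempty}.Finite
  coc : ∃ K ⊆ D, IsCompact K ∧ ∀ x ∈ D, ∃ γ, ρ γ x ∈ K

/-! ## Basic properties -/

variable {D : Set V}

theorem zero_mem_UF : (fun _ => 0 : V → ℂ) ∈ UF D :=
  ⟨differentiableOn_const _, fun _ _ => by simp⟩

theorem zero_mem_UM : (fun _ => 0 : V → V) ∈ UM D :=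
  ⟨differentiableOn_const _, fun _ _ => by simp⟩

theorem cd_bdd {x y : V} (hx : x ∈ D) (hy : y ∈ D) :
    BddAbove ((fun f : V → ℂ => ‖f x - f y‖) '' UF D) := by
  refine ⟨2, ?_⟩
  rintro _ ⟨f, hf, rfl⟩
  calc ‖f x - f y‖ ≤ ‖f x‖ + ‖f y‖ := norm_sub_le _ _
    _ ≤ 1 + 1 := add_le_add (hf.2 x hx) (hf.2 y hy)
    _ = 2 := by norm_num

theorem le_cd {x y : V} (hx : x ∈ D) (hy : y ∈ D) {f : V → ℂ} (hf : f ∈ UF D) :
    ‖f x - f y‖ ≤ cd D x y :=
  le_csSup (cd_bdd hx hy) ⟨f, hf, rfl⟩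

theorem cd_le {x y : V} {C : ℝ} (h : ∀ f ∈ UF D, ‖f x - f y‖ ≤ C) : cd D x y ≤ C := by
  refine csSup_le ⟨_, ⟨_, zero_mem_UF, rfl⟩⟩ ?_
  rintro _ ⟨f, hf, rfl⟩
  exact h f hf

theorem Aut2.symm {g h : V → V} (hg : Aut2 D g h) : Aut2 D h g :=
  ⟨hg.dh, hg.dg, hg.mh, hg.mg, hg.gh, hg.hg⟩

theorem Aut2.comp {g h g' h' : V → V} (hg : Aut2 D g h) (hg' : Aut2 D g' h') :
    Aut2 D (fun x => g (g' x)) (fun x => h' (h x)) where
  dg := hg.dg.comp hg'.dg hg'.mg
  dh := hg'.dh.comp hg.dh hg.mh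
  mg := fun _ hx => hg.mg (hg'.mg hx)
  mh := fun _ hx => hg'.mh (hg.mh hx)
  hg := fun x hx => by rw [hg.hg _ (hg'.mg hx), hg'.hg x hx]
  gh := fun x hx => by rw [hg'.gh _ (hg.mh hx), hg.gh x hx]

theorem Flow.aut {X : V → V} {φ : ℝ → V → V} (h : Flow D X φ) (t : ℝ) :
    Aut2 D (φ t) (φ (-t)) where
  dg := h.dif t
  dh := h.dif (-t)
  mg := h.maps t
  mh := h.maps (-t)
  hg := fun x hx => by rw [← h.add _ _ x hx, neg_add_cancel, h.zero x hx]
  gh := fun x hx => by rw [← h.add _ _ x hx, add_neg_cancel, h.zero x hx]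

theorem Flow.congr {X Y : V → V} {φ : ℝ → V → V} (h : Flow D X φ) (hXY : ∀ x ∈ D, Y x = X x) :
    Flow D Y φ :=
  ⟨h.dif, h.maps, h.zero, h.add, fun x hx t => by
    rw [hXY _ (h.maps t hx)]; exact h.der x hx t⟩

theorem Cpl.congr {X Y : V → V} (h : Cpl D X) (hXY : ∀ x ∈ D, Y x = X x) : Cpl D Y := by
  obtain ⟨h1, φ, h2⟩ := h
  exact ⟨h1.congr hXY, φ, h2.congr hXY⟩

theorem GAct.aut {Γ : Type u} [Group Γ] {ρ : Γ → V → V} (h : GAct D ρ) (γ : Γ) :
    Aut2 D (ρ γ) (ρ γ⁻¹) where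
  dg := h.dif γ
  dh := h.dif _
  mg := h.maps γ
  mh := h.maps _
  hg := fun x hx => by rw [← h.mul _ _ x hx, inv_mul_cancel, h.one x hx]
  gh := fun x hx => by rw [← h.mul _ _ x hx, mul_inv_cancel, h.one x hx]

/-! ## Algebra of the form -/

section form

variable {m k : ℕ} {F : Fin k → Matrix (Fin m) (Fin m) ℂ}

theorem hf_add_left (z z' z'' : Cn m) : hf F (z + z') z'' = hf F z z'' + hf F z' z'' := by
  ext j
  simp only [hf, Pi.add_apply, ← Finset.sum_add_distrib]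
  refine Finset.sum_congr rfl fun a _ => Finset.sum_congr rfl fun b _ => by ring

theorem hf_add_right (z z' z'' : Cn m) : hf F z (z' + z'') = hf F z z' + hf F z z'' := by
  ext j
  simp only [hf, Pi.add_apply, ← Finset.sum_add_distrib, map_add]
  refine Finset.sum_congr rfl fun a _ => Finset.sum_congr rfl fun b _ => by ring

theorem hf_smul_left (c : ℂ) (z z' : Cn m) : hf F (c • z) z' = c • hf F z z' := by
  ext j
  simp only [hf, Pi.smul_apply, smul_eq_mul, Finset.mul_sum]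
  refine Finset.sum_congr rfl fun a _ => Finset.sum_congr rfl fun b _ => by ring

theorem hf_smul_right (c : ℂ) (z z' : Cn m) :
    hf F z (c • z') = (starRingEnd ℂ) c • hf F z z' := by
  ext j
  simp only [hf, Pi.smul_apply, smul_eq_mul, Finset.mul_sum, map_mul]
  refine Finset.sum_congr rfl fun a _ => Finset.sum_congr rfl fun b _ => by ring

theorem hf_conj {Om : Set (Fin k → ℝ)} (h : Sie F Om) (z z' : Cn m) (j : Fin k) :
    (starRingEnd ℂ) (hf F z z' j) = hf F z' z j := by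
  simp only [hf, map_sum, map_mul, Complex.conj_conj]
  rw [Finset.sum_comm]
  refine Finset.sum_congr rfl fun a _ => Finset.sum_congr rfl fun b _ => ?_
  rw [← h.herm]; ring

theorem hf_self_im {Om : Set (Fin k → ℝ)} (h : Sie F Om) (z : Cn m) (j : Fin k) :
    (hf F z z j).im = 0 := by
  have := hf_conj h z z j
  exact Complex.conj_eq_iff_im.1 this

theorem hf_self {Om : Set (Fin k → ℝ)} (h : Sie F Om) (z : Cn m) :
    cx (rev (hf F z z)) = hf F z z := by
  ext j
  apply Complex.ext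
  · simp [cx, rev]
  · simp [cx, hf_self_im h z j]

end form

end KVB
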