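import Pool.Agent.Lib.KV.B.SpecS

/-!
# KV (MP_64edc4_ag), part B, block E: the symmetries, and the end of part B
-/

set_option autoImplicit false

open Set Filter Topology Metric MeasureTheory

namespace KVB

open KP

/-- `D` has a symmetry at `p`. -/
def SPt {V : Type} [NormedAddCommGroup V] [NormedSpace ℂ V] (D : Set V) (p : V) : Prop :=
  ∃ s : V → V, DifferentiableOn ℂ s D ∧ MapsTo s D D ∧ (∀ x ∈ D, s (s x) = x) ∧ s p = p ∧
    fderiv ℂ s p = -ContinuousLinearMap.id ℂ V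

/-- The linear isomorphism to `Vs m k`. -/
def toV {m k : ℕ} (p : Cn (m + k)) : Vs m k :=
  (fun i => p (Fin.castAdd k i), fun j => p (Fin.natAdd m j))

/-- The linear isomorphism from `Vs m k`. -/
def ofV {m k : ℕ} (p : Vs m k) : Cn (m + k) := Fin.append p.1 p.2

/-- **Sym0.** The symmetry at the point `(0, i e)`. Uses `Hei`, `AdC`, `Lin`, `Iso`, `LA1`, `CUm`.

PROOF. `D = SD F Om`, `p = (0, i e)`, `X = f2 M1 b2`, `T = fm2 (cx e)` (translation field), `E (z, w) = (z, 2 w)` (Euler field): `X`, `T`, `E` are complete (`Hei`). The transport of `X` by the translation `(z, w) ↦ (z, w - cx e)` (an automorphism, `AdC`) is `X (z, w + cx e) = X (z, w) + L (z, w) + (0, e)` with the linear map `L (z, w) = (M1 e z, 2 b2 e w)`, so `L` is a complete field (`Lin`), and so is the linear field `N = L - E`. `N p = (0, 2 i b2 e e - 2 i e) = 0`, so `exp (t N)` is bounded (`Iso`; the derivative of a linear field is the field). `Θ = T +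 X` is complete, `Θ p = (0, e + b2 (i e) (i e)) = 0`, `fderiv Θ p (z', w') = (M1 (i e) z', 2 b2 (i e) w') = i L (z', w')`, so `exp (t i L)` is bounded (`Iso`). `E = diag (1, 2)` and `L` (which preserves both factors) commute, so `exp (t i N) = exp (t i L) * exp (-t i E)`, and `exp (-t i E) = diag (e^(-i t), e^(-2 i t))` is bounded. `LA1`: `N = 0`, `L = E`. Let `φ` be the flow of `Θ`: `φ t p = p` and `fderiv (φ t) p = exp (t i E) = diag (e^(i t), e^(2 i t))` (`Iso`); for `t = π/2` this is `diag (i, -1)`. `j (z, w) = (i z, w)` is an automorphism (`Hei`), `j p = p`. `s = φ (π/2) ∘ j`: `s p = p`, `fderiv s p = diag (i, -1) * diag (i, 1) = -1`. `s ∘ s` fixes `p` with derivative `1`, so it is the identity on `D` (`CUm`). -/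
def S_Sym0 : Prop := ∀ (m k : ℕ) (F : Fin k → Matrix (Fin m) (Fin m) ℂ)
  (Om : Set (Fin k → ℝ)), Sie F Om → Hyp (SD F Om) → ∀ e ∈ Om,
  ∀ (M1 : Cn k →ₗ[ℂ] Cn m →ₗ[ℂ] Cn m) (b2 : Cn k →ₗ[ℂ] Cn k →ₗ[ℂ] Cn k),
    (∀ u v, b2 u v = b2 v u) → Cpl (SD F Om) (f2 M1 b2) → b2 (cx e) (cx e) = cx e →
    SPt (SD F Om) ((0, Complex.I • cx e) : Vs m k)

/-- **SymD.** Symmetries at all points. Uses `Sym0`, `Hei`.

PROOF. Let `p = (z0, w0) ∈ D`, `e = imv w0 - rev (h z0 z0) ∈ Om`, `r = rev w0`, `H`, `H'` the automorphism of `Hei` for `a = z0`, `r` and its inverse: `H (0, i e) = (z0, i e + cx r + i h(z0, z0)) = (z0, w0)` (`hf_self`). With `s` from `Sym0` (and the hypothesis for `e`): `H ∘ s ∘ H'`; its derivative at `p` is `fderiv H (0, i e) ∘ (-1) ∘ fderiv H' p = -fderiv (H ∘ H') p = -1`. -/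
def S_SymD : Prop := ∀ (m k : ℕ) (F : Fin k → Matrix (Fin m) (Fin m) ℂ)
  (Om : Set (Fin k → ℝ)), Sie F Om → Hyp (SD F Om) → (∀ e ∈ Om,
  ∃ (M1 : Cn k →ₗ[ℂ] Cn m →ₗ[ℂ] Cn m) (b2 : Cn k →ₗ[ℂ] Cn k →ₗ[ℂ] Cn k),
    (∀ u v, b2 u v = b2 v u) ∧ Cpl (SD F Om) (f2 M1 b2) ∧ b2 (cx e) (cx e) = cx e) →
  ∀ p ∈ SD F Om, SPt (SD F Om) p

/-- **Cay.** A bounded realization of the Siegel domain. Uses `LamP`.

PROOF. `D = SD F Om`, `h = hf F`. `D` is open; convex: for `p = (z, w)`, `p' = (z', w')` in `D`, `a + b = 1`, `a, b ≥ 0`: `h(a z + b z', a z + b z') = a h(z, z) + b h(z', z') - a b h(z - z', z - z')`, so `imv - rev h` at `a p + b p'` is `a y + b y' + a b rev (h(z - z', z - z')) ∈ Om + closure Om ⊆ Om` (`LamP` (3)). Nonempty: `(0, i e)`. Bounded realization: the linear forms `dt l`, `l ∈ Lam Om`, span the dual space (`LamP` (4)), so there are `k` linearly independent `l 1, ..., l k ∈ Lam Om` (`exists_linearIndependent`, `Basis.ofSpan`-type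 lemma); `T w = (dc (l a) w)_a` is an invertible linear map of `Cn k`. On `D`: `imv w = y + rev h(z,z) ∈ Om` with `y ∈ Om`, so `(dc (l a) w).im > 0` (`LamP` (1)). Let `lam`, `c` be from `LamP` (6): `q w = dc lam w + i` has the imaginary part `≥ 1` on `D`. `b (z, w)` has the first `m` coordinates `z / q w` and the last `k` coordinates `u a = (T w a - i) / (T w a + i)`, of norm `< 1`. Bound: there is `c' > 0` with `c' ‖z‖² ≤ ‖h z z‖` (compactness of the unit sphere, `Sie.pd`, homogeneity), and `c ‖rev h(z,z)‖ ≤ dt lam (rev h(z,z)) ≤ dt lam (imv w) =: Y` (as `dt lam y ≥ 0`), so `c c' ‖z‖² ≤ Y` and `‖q w‖ ≥ Y + 1`, `‖z / q w‖² ≤ Y / (c c' (Y+1)²) ≤ 1 / (c c')`. Inverse `b'`: `T w a = i (1 + u a) / (1 - u a)`, `w = T⁻¹ (...)`, `z = q w • ζ`, holomorphic on the open set `{u a ≠ 1 for all a}`. `b '' D = {(ζ, u) | u a ≠ 1 for all a, b' (ζ, u) ∈ D}` is open (`b (b' (ζ, u)) = (ζ, u)` there). -/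
def S_Cay : Prop := ∀ (m k : ℕ) (F : Fin k → Matrix (Fin m) (Fin m) ℂ)
  (Om : Set (Fin k → ℝ)), Sie F Om →
  IsOpen (SD F Om) ∧ IsPreconnected (SD F Om) ∧ (SD F Om).Nonempty ∧
  ∃ (b : Vs m k → Cn (m + k)) (b' : Cn (m + k) → Vs m k) (R : ℝ),
    DifferentiableOn ℂ b (SD F Om) ∧ IsOpen (b '' SD F Om) ∧
    DifferentiableOn ℂ b' (b '' SD F Om) ∧ (∀ x ∈ SD F Om, b' (b x) = x) ∧
    ∀ x ∈ SD F Om, ‖b x‖ ≤ R

/-- **HypS.** The soft hypotheses for Siegel domains. Uses `Cay`, `HypB`.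

PROOF. Direct. -/
def S_HypS : Prop := ∀ (m k : ℕ) (F : Fin k → Matrix (Fin m) (Fin m) ℂ)
  (Om : Set (Fin k → ℝ)), Sie F Om → ∀ (Γ : Type) [Group Γ] (ρ : Γ → Vs m k → Vs m k),
  GAct (SD F Om) ρ → Hyp (SD F Om)

/-- **TrA.** Transport of the group action. Uses `Cay` (the Siegel domain is open).

PROOF. `U ≃ SDn F Om` by `f`, `g` (`Biholo`); `D = SD F Om`, `SDn F Om = toV ⁻¹' D`, `toV`, `ofV` are inverse linear isomorphisms. For `γ : Γ` let `f_γ` be a map with `HolOn f_γ U`, `f_γ u = γ • u`; `ρ γ v = toV (f (f_γ (g (ofV v))))`. `dif`: `HolOn.comp`, `holOn_iff` on the open set `SDn F Om`. `maps`, `one`, `mul` are clear. `pd`: for a compact `Q ⊆ D` the set `K = g '' (ofV '' Q) ⊆ U` is compact (also as a subset of the subtype), and `ρ γ '' Q ∩ Q ≠ ∅` implies `γ • K ∩ K ≠ ∅`. `coc`: `v ↦ g (ofV v)` is a homeomorphism of `D` onto the subtype `U` (`HolOn.continuousOn`). The quotient map `π` of `U` is open (each `γ` acts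 by homeomorphisms; `isOpenMap_quotient_mk'_mul` needs `ContinuousConstSMul Γ U`). For `v ∈ D` let `B_v ⊆ D` be a closed ball around `v`, `B_v'` the open ball. The sets `π (g (ofV '' B_v'))` form an open cover of the compact quotient; take finitely many and `K0` = the union of the corresponding `B_v`. -/
def S_TrA : Prop := ∀ (N m k : ℕ) (F : Fin k → Matrix (Fin m) (Fin m) ℂ)
  (Om : Set (Fin k → ℝ)) (U : Set (Cn N)), Sie F Om → Biholo U (SDn F Om) →
  ∀ (Γ : Type) [Group Γ] [MulAction Γ U],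
    (∀ γ : Γ, ∃ f : Cn N → Cn N, HolOn f U ∧ ∀ u : U, f u = ((γ • u : U) : Cn N)) →
    (∀ K : Set U, IsCompact K → {γ : Γ | ((fun u : U => γ • u) '' K ∩ K).Nonempty}.Finite) →
    CompactSpace (Quotient (MulAction.orbitRel Γ U)) →
    ∃ ρ : Γ → Vs m k → Vs m k, GAct (SD F Om) ρ

/-- **Bsd.** Bounded symmetric domains from symmetries.

PROOF. `D' = b '' D` is open, bounded, connected (continuous image). Let `q = b p`, `p ∈ D`, `s` the symmetry at `p`, `s' = b ∘ s ∘ b'`: holomorphic on the open set `D'` (`holOn_iff`), maps `D'` to `D'`, `s' (s' y) = y`, `s' q = q`. Its derivative at `q` is `fderiv b p ∘ (-1) ∘ fderiv b' q = -fderiv (b ∘ b') q = -1` (`b ∘ b'` is the identity on the open set `D'`). So `‖s' y - q + (y - q)‖ ≤ ‖y - q‖` for `y` near `q` (little o), and `s' y = y` gives `2 ‖y - q‖ ≤ ‖y - q‖`, `y = q`. -/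
def S_Bsd : Prop := ∀ (V : Type) [NormedAddCommGroup V] [NormedSpace ℂ V] (D : Set V),
  IsOpen D → IsPreconnected D → D.Nonempty → ∀ (n : ℕ) (b : V → Cn n) (b' : Cn n → V) (R : ℝ),
    DifferentiableOn ℂ b D → IsOpen (b '' D) → DifferentiableOn ℂ b' (b '' D) →
    (∀ x ∈ D, b' (b x) = x) → (∀ x ∈ D, ‖b x‖ ≤ R) → (∀ p ∈ D, SPt D p) → IsBSD (b '' D)

/-- **PB.** The main theorem of part B. Uses `TrA`, `HypS`, `E2`, `SymD`, `Cay`, `Bsd`.

PROOF. `ρ` from `TrA`, `Hyp` from `HypS`, the fields of weight `2` from `E2`, the symmetries from `SymD`, `b`, `b'` from `Cay`, `D' = b '' SD F Om` is a bounded symmetric domain (`Bsd`). `Biholo U D'`: compose `f`, `g` of `Biholo U (SDn F Om)` with `b ∘ toV` and `ofV ∘ b'` (`HolOn.comp`, `holOn_iff`). -/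
def S_PB : Prop := ∀ (N m k : ℕ) (F : Fin k → Matrix (Fin m) (Fin m) ℂ)
  (Om : Set (Fin k → ℝ)) (U : Set (Cn N)), Sie F Om → Biholo U (SDn F Om) →
  ∀ (Γ : Type) [Group Γ] [MulAction Γ U],
    (∀ γ : Γ, ∃ f : Cn N → Cn N, HolOn f U ∧ ∀ u : U, f u = ((γ • u : U) : Cn N)) →
    (∀ K : Set U, IsCompact K → {γ : Γ | ((fun u : U => γ • u) '' K ∩ K).Nonempty}.Finite) →
    CompactSpace (Quotient (MulAction.orbitRel Γ U)) →
    ∃ D : Set (Cn (m + k)), IsBSD D ∧ Biholo U D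

end KVB
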