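import Pool.Agent.Lib.KV.B.Defs

/-!
# KV (MP_64edc4_ag), part B, block A: invariant metrics, flows, complete vector fields
-/

set_option autoImplicit false

open Set Filter Topology Metric

namespace KVB

open KP

/-- **CdB.** Basic properties of the distance `cd`.

PROOF. `cd_le`, `le_cd` (`Defs`). (i) nonnegativity: `f = 0`. (ii) triangle inequality: `‖f x - f z‖ ≤ ‖f x - f y‖ + ‖f y - f z‖`. (iii) if `f ∈ UF D` then `f ∘ g ∈ UF D`. (iv) Cauchy: for `f ∈ UF D` and `z ∈ ball x (r/2)`: `‖fderiv ℂ f z‖ ≤ 1 / (r/2)` (`Osgood.norm_fderiv_le'`), mean value inequality on the convex ball. (v) from (iv) and the triangle inequality: `|cd x y - cd x' y'| ≤ cd x x' + cd y y'`. -/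
def S_CdB : Prop := ∀ (V : Type) [NormedAddCommGroup V] [NormedSpace ℂ V] (D : Set V), IsOpen D →
  (∀ x ∈ D, ∀ y ∈ D, 0 ≤ cd D x y ∧ cd D x y ≤ 2 ∧ cd D x y = cd D y x ∧ cd D x x = 0) ∧
  (∀ x ∈ D, ∀ y ∈ D, ∀ z ∈ D, cd D x z ≤ cd D x y + cd D y z) ∧
  (∀ g : V → V, DifferentiableOn ℂ g D → MapsTo g D D → ∀ x ∈ D, ∀ y ∈ D,
    cd D (g x) (g y) ≤ cd D x y) ∧
  (∀ x r, 0 < r → ball x r ⊆ D → ∀ y ∈ ball x (r / 2), ∀ z ∈ ball x (r / 2),
    cd D y z ≤ 2 / r * ‖y - z‖) ∧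
  ContinuousOn (fun p : V × V => cd D p.1 p.2) (D ×ˢ D)

/-- **CnB.** Basic properties of `cn`.

PROOF. For `ball x r ⊆ D`: `‖fderiv ℂ f x v‖ ≤ ‖v‖ / r` for `f ∈ UF D` (`Osgood.norm_fderiv_le`). Invariance: `f ∈ UF D` gives `f ∘ g ∈ UF D` with `fderiv (f ∘ g) x v = fderiv f (g x) (fderiv g x v)`: `cn (g x) (dg v) ≥` and, with `h`, `≤` (`dh (g x) (dg x v) = v`, the chain rule for `h ∘ g = id` near `x`). Continuity: for `f ∈ UF D`, `ball x r ⊆ D` the derivative is Lipschitz on `ball x (r/4)` with a constant which depends only on `r` (apply Cauchy's estimate to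
`u ↦ f (u + (w - z)) - f u`, as in `Osgood.continuousOn_fderiv`), so `(x, v) ↦ ‖fderiv f x v‖`, `f ∈ UF D`, is a locally uniformly equicontinuous family and the supremum is continuous. -/
def S_CnB : Prop := ∀ (V : Type) [NormedAddCommGroup V] [NormedSpace ℂ V] (D : Set V), IsOpen D →
  (∀ x ∈ D, ∀ v, 0 ≤ cn D x v ∧ ∀ f ∈ UF D, ‖fderiv ℂ f x v‖ ≤ cn D x v) ∧
  (∀ x r, 0 < r → ball x r ⊆ D → ∀ v, cn D x v ≤ ‖v‖ / r) ∧
  (∀ x ∈ D, ∀ v v', cn D x (v + v') ≤ cn D x v + cn D x v') ∧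
  (∀ x ∈ D, ∀ (c : ℂ) v, cn D x (c • v) = ‖c‖ * cn D x v) ∧
  (∀ g h : V → V, Aut2 D g h → ∀ x ∈ D, ∀ v, cn D (g x) (fderiv ℂ g x v) = cn D x v) ∧
  ContinuousOn (fun p : V × V => cn D p.1 p.2) (D ×ˢ univ)

/-- **CnP.** Positivity of `cn` on compact sets. Uses `CdB`.

PROOF. Let `r > 0` be such that the closed `2 r`-neighbourhood `Q1` of `Q` is a compact subset of `D`; `c` from `Hyp.lo` for `Q1`. For `x ∈ Q`, `‖v‖ = r` and real `0 < t < 1/2` there is `f ∈ UF D` with `‖f (x + t v) - f x‖ ≥ c t r / 2` (`cd` is a supremum, `c t r ≤ cd`). The function `u s = f (x + s • v)` is holomorphic and bounded by `1` for `‖s‖ < 2`, so `‖u t - u 0 - t u' 0‖ ≤ C0 t²` with a numerical constant (Taylor, Cauchy). So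
`t ‖fderiv ℂ f x v‖ ≥ c t r / 2 - C0 t²`; choose `t = min (1/4) (c r / (4 C0))`: `cn x v ≥ c r / 4`. Homogeneity gives the claim for all `v`. -/
def S_CnP : Prop := ∀ (V : Type) [NormedAddCommGroup V] [NormedSpace ℂ V]
  [FiniteDimensional ℂ V] (D : Set V), Hyp D → ∀ Q ⊆ D, IsCompact Q →
    ∃ c > 0, ∀ x ∈ Q, ∀ v, c * ‖v‖ ≤ cn D x v

/-- **DnB.** Basic properties of the volume density.

PROOF. For `f ∈ UM D`, `ball x r ⊆ D`: `‖fderiv ℂ f x‖ ≤ 1 / r`, and `rdet` is continuous on the finite dimensional space of linear maps, so it is bounded on bounded sets: the supremum is finite, locally bounded. Positivity: `Hyp.nd`. Invariance: for `f ∈ UM D` also `f ∘ g ∈ UM D`, `rdet (fderiv (f ∘ g) x) = rdet (fderiv f (g x)) * rdet (fderiv g x)` (the determinant of a composition), and `rdet (dg x) ≠ 0`; conversely every `f' ∈ UM D` is `(f' ∘ h) ∘ g` near `x`. Continuity: on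
`ball x (r/4)` the derivatives of the `f ∈ UM D` are equi-Lipschitz and bounded (see `CnB`), and `rdet` is uniformly continuous on bounded sets. -/
def S_DnB : Prop := ∀ (V : Type) [NormedAddCommGroup V] [NormedSpace ℂ V]
  [FiniteDimensional ℂ V] (D : Set V), Hyp D → (∀ x ∈ D, 0 < dens D x) ∧
  (∀ g h : V → V, Aut2 D g h → ∀ x ∈ D, dens D (g x) * rdet (fderiv ℂ g x) = dens D x) ∧
  ContinuousOn (dens D) D

/-- **Itr.** Iterates stay in compact sets. Uses `CdB`.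

PROOF. `r0` from `Hyp.bc` (wlog `T ≥ 0`). Let `Q_0 = Q`, `Q_(i+1) = Q_i ∪ (the compact set Q' of bc for Q_i)`, `M` a natural number with `M ≥ 2 T / r0 + 1`, `Q' = Q_M`. Let `δ = cd x (g x) ≤ r0`, `x_i = g^[i] x ∈ D`, `cd (x_i) (x_(i+1)) ≤ δ` (`CdB` (iii)). If `δ = 0` then `cd x (x_n) = 0 ≤ r0`, so `x_n ∈ Q_1`. If `δ > 0` let `b = ⌊r0 / δ⌋ ≥ 1`, so `b ≥ r0 / (2 δ)`. By the triangle inequality `cd (x_i) (x_j) ≤ (j - i) δ ≤ r0` for `i ≤ j ≤ i + b`; so by induction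
`x_j ∈ Q_s` for `j ≤ s b`. `n ≤ s b` for `s = ⌈n / b⌉ ≤ 2 n δ / r0 + 1 ≤ M`. -/
def S_Itr : Prop := ∀ (V : Type) [NormedAddCommGroup V] [NormedSpace ℂ V] (D : Set V), Hyp D →
  ∃ r0 > 0, ∀ Q ⊆ D, IsCompact Q → ∀ T : ℝ, ∃ Q' ⊆ D, IsCompact Q' ∧ Q ⊆ Q' ∧
    ∀ g : V → V, DifferentiableOn ℂ g D → MapsTo g D D → ∀ x ∈ Q, cd D x (g x) ≤ r0 →
      ∀ n : ℕ, n * cd D x (g x) ≤ T → g^[n] x ∈ Q'

/-- **Eul.** Tangent vectors of the automorphism group are complete vector fields. Uses `CdB`, `Itr`.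

PROOF. `X` is holomorphic on `D` (locally uniform limit: `Osgood.norm_fderiv_le`, `hasFDerivAt_of_tendstoUniformlyOn` as in `Pool/Agent/Lib/MP_c2a04f_an/HolLim.lean`), bounded and Lipschitz near compact sets. (1) `(h_j x - x)/t_j → -X` uniformly on compact sets: `cd (h_j x) x = cd x (g_j x)` (invariance) `≤ C t_j` on a compact set `Q` (`CdB` (iv)), so `h_j x` stays in a fixed compact set (`bc`) and
`‖h_j x - x‖ ≤ C' t_j` (`lo`); with `y = h_j x`: `h_j x - x = -(g_j y - y)`. So the roles of `g`, `h` are symmetric (`X` and `-X`). (2) Fix `Q`, `T`. `cd x (g_j x) ≤ C t_j` on `Q`; by `Itr` for large `j` all `g_j^[n] x`, `n t_j ≤ T`, `x ∈ Q`, lie in a compact `Q' ⊆ D` (apply `Itr` with `C T`). On `Q'`: `g_j y = y + t_j X y + t_j e_j(y)`, `‖e_j‖ ≤ ε_j → 0`; hence for `a ≤ b`, `b t_j ≤ T`: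
`‖g_j^[b] x - g_j^[a] x‖ ≤ C1 (b - a) t_j`, and (Lipschitz constant `L` of `X` between nearby points of `Q'`) `‖g_j^[n] x - x - n t_j X x‖ ≤ n t_j (ε_j + L C1 n t_j)` for `n t_j` small. (3) Let `U` be an ultrafilter on `ℕ`, `U ≤ atTop` (`Filter.hyperfilter ℕ`). For `x ∈ D`, `t ≥ 0` let `φ t x = lim_U g_j^[⌊t / t_j⌋₊] x` (the sequence is eventually in a compact subset of `D`, so the limit exists and is in `D`), and
`φ (-t) x = lim_U h_j^[⌊t / t_j⌋₊] x`. The maps `g_j^[n]`, `n t_j ≤ T`, map a ball around `x` into a compact set, so they are equi-Lipschitz on a smaller ball (Cauchy); so the convergence along `U` is locally uniform and `φ t` is holomorphic on `D` (`hasFDerivAt_of_tendstoUniformlyOn` works for every filter; or: the limit of the derivatives). Group law for `s, t ≥ 0`: `⌊(s + t)/t_j⌋ = ⌊s/t_j⌋ + ⌊t/t_j⌋ + (0 or 1)`, one more step moves the points by `O(t_j)`,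
and `g_j^[a] (y_j) - g_j^[a] y → 0` if `y_j → y` (equi-Lipschitz). For opposite signs: `h_j^[a] (g_j^[b] x) = g_j^[b - a] x` if `a ≤ b`, and the other case. `φ 0 x = x`. Derivative: by (2) `‖φ t x - x - t X x‖ ≤ C2 t²` for small `|t|` (both signs), so `s ↦ φ s x` has the derivative `X x` at `0`; for general `t`: `φ s x = φ (s - t) (φ t x)`. -/
def S_Eul : Prop := ∀ (V : Type) [NormedAddCommGroup V] [NormedSpace ℂ V]
  [FiniteDimensional ℂ V] (D : Set V), Hyp D → ∀ (g h : ℕ → V → V) (t : ℕ → ℝ) (X : V → V),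
    (∀ j, Aut2 D (g j) (h j)) → (∀ j, 0 < t j) → Tendsto t atTop (𝓝 0) →
    (∀ Q ⊆ D, IsCompact Q →
      TendstoUniformlyOn (fun j x => ((t j)⁻¹ : ℝ) • (g j x - x)) X atTop Q) → Cpl D X

/-- **FlB.** Bounds for flows. Uses `CdB`, `CnB`.

PROOF. `d(φ s)(x) (X x) = X (φ s x)` for `x ∈ D` (differentiate `φ s (φ u x) = φ u (φ s x)` in `u` at `0`). For `f ∈ UF D` the function `s ↦ f (φ s x)` has the derivative `fderiv f (φ s x) (X (φ s x))`, of norm `≤ cn (φ s x) (X (φ s x)) = cn x (X x)` (`CnB`, `Flow.aut`), so `cd x (φ t x) ≤ |t| cn x (X x) ≤ |t| C_Q` for `x ∈ Q` (`CnB`: `cn` is bounded on compact sets). (a) Let `r0` be from `Hyp.bc`, `n` with `T C_Q / n ≤ r0`: `cd (φ (i t/n) x) (φ ((i+1) t/n) x) = cd x (φ (t/n) x) ≤ r0`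
(`CdB` (iii) for `φ (i t / n)`), so `n` applications of `bc` give `Q'`. (b) For `|s| ≤ 1` the points `φ s x`, `x ∈ Q`, are in a compact set, on which `‖X‖ ≤ C1`; so `‖φ s x - x‖ ≤ C1 |s|` (mean value inequality). Let `r > 0` be such that the closed `2 r`-neighbourhood of `Q` is a compact subset of `D`; `X` is Lipschitz on the balls `closedBall x r`, `x ∈ Q`, with a common constant `L` (Cauchy). For `C1 |t| ≤ r`: the function `s ↦ φ s x - x - s X x` has the derivative `X (φ s x) - X x`, of norm `≤ L C1 |s|`; so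
`‖φ t x - x - t X x‖ ≤ L C1 t²`. For `r / C1 < |t| ≤ 1` the left side is bounded by a constant. (c) joint continuity: `‖φ t' x' - φ t x‖ ≤ ‖φ t' x' - φ t x'‖ + ‖φ t x' - φ t x‖`, the first term is `≤ C |t' - t|` for `x'` near `x`, `t'` near `t`. -/
def S_FlB : Prop := ∀ (V : Type) [NormedAddCommGroup V] [NormedSpace ℂ V]
  [FiniteDimensional ℂ V] (D : Set V), Hyp D → ∀ (X : V → V) (φ : ℝ → V → V),
    DifferentiableOn ℂ X D → Flow D X φ →
    (∀ Q ⊆ D, IsCompact Q → ∀ T : ℝ, ∃ Q' ⊆ D, IsCompact Q' ∧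
      ∀ t : ℝ, |t| ≤ T → ∀ x ∈ Q, φ t x ∈ Q') ∧
    (∀ Q ⊆ D, IsCompact Q → ∃ C : ℝ, ∀ t : ℝ, |t| ≤ 1 → ∀ x ∈ Q,
      ‖φ t x - x - t • X x‖ ≤ C * t ^ 2) ∧
    ContinuousOn (fun p : ℝ × V => φ p.1 p.2) (univ ×ˢ D)

/-- **Lin.** The complete fields form a real vector space. Uses `Eul`, `FlB`.

PROOF. `(r : ℂ) • X` has the flow `(t, x) ↦ φ (r t) x`. Sum: flows `φ`, `ψ` of `X`, `Y`; `t_j = 1 / (j + 1)`, `g_j = φ (t_j) ∘ ψ (t_j)`, `h_j = ψ (-t_j) ∘ φ (-t_j)` (`Flow.aut`, `Aut2.comp`). On a compact `Q`: `ψ t x = x + t Y x + O(t²)` (`FlB` (b)), the points `ψ t x`, `|t| ≤ 1`, are in a compact `Q'` (`FlB` (a)), `φ t (ψ t x) = ψ t x + t X (ψ t x) + O(t²)`, and `X (ψ t x) → X x` uniformly on `Q` (`X` is uniformly continuous on the compact set, `‖ψ t x - x‖ = O(t)`). So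
`(g_j x - x)/t_j → X x + Y x` uniformly on `Q`; `Eul`. -/
def S_Lin : Prop := ∀ (V : Type) [NormedAddCommGroup V] [NormedSpace ℂ V]
  [FiniteDimensional ℂ V] (D : Set V), Hyp D → ∀ X : V → V, Cpl D X →
    (∀ r : ℝ, Cpl D (fun x => (r : ℂ) • X x)) ∧ ∀ Y : V → V, Cpl D Y → Cpl D (fun x => X x + Y x)

/-- **AdC.** Transport of complete fields.

PROOF. `Ad g h X` is holomorphic on `D` (`Osgood.differentiableOn_fderiv`). Its flow is `t ↦ g ∘ φ t ∘ h`: derivative at `t`: `fderiv g (φ t (h x)) (X (φ t (h x)))`, and `φ t (h x) = h (g (φ t (h x)))`. -/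
def S_AdC : Prop := ∀ (V : Type) [NormedAddCommGroup V] [NormedSpace ℂ V]
  [FiniteDimensional ℂ V] (D : Set V), IsOpen D → ∀ (g h X : V → V), Aut2 D g h → Cpl D X →
    Cpl D (Ad g h X)

/-- **AdD.** The derivative of the transport by a flow. Uses `FlB`.

PROOF. Let `x ∈ D`, `Q` a closed ball around `x` in `D`, `Q2` a slightly larger one. `E_s y = φ s y - y - s X y` is holomorphic on `Q2` and `‖E_s‖ ≤ C s²` there (`FlB` (b)), so `‖fderiv E_s y‖ ≤ C' s²` on `Q` (Cauchy): `fderiv (φ s) y = 1 + s fderiv X y + O(s²)` uniformly for `y ∈ Q`, `|s| ≤ 1`. With `y = φ (-s) x = x - s X x + O(s²)`: `Y y = Y x - s (fderiv Y x) (X x) + o(s)`, `fderiv X y → fderiv X x`. So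
`Ad (φ s) (φ (-s)) Y x = Y x + s (fderiv X x (Y x) - fderiv Y x (X x)) + o(s)`. -/
def S_AdD : Prop := ∀ (V : Type) [NormedAddCommGroup V] [NormedSpace ℂ V]
  [FiniteDimensional ℂ V] (D : Set V), Hyp D → ∀ (X Y : V → V) (φ : ℝ → V → V),
    DifferentiableOn ℂ X D → DifferentiableOn ℂ Y D → Flow D X φ → ∀ x ∈ D,
    HasDerivAt (fun s : ℝ => Ad (φ s) (φ (-s)) Y x) (-(Br X Y x)) 0

/-- **Iso.** Zeros of complete fields: the isotropy group is bounded. Uses `FlB`, `CdB`.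

PROOF. `φ t p = p`: the constant function and `t ↦ φ t p` both solve the equation; or: `cd p (φ t p) ≤ |t| cn p (X p) = 0` as in `FlB`; or: `s ↦ φ s p` has the derivative `d(φ s)(p) (X p) = 0`. `L t = fderiv ℂ (φ t) p` satisfies `L (s + t) = L s ∘ L t` (chain rule), `L 0 = 1`, and `L t = 1 + t fderiv X p + O(t²)` (as in `AdD`), so `L` is differentiable with `L' = fderiv X p ∘ L`, and `L t = exp (t • fderiv X p)` (the derivative of `exp (-t A) ∘ L t` is `0`;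
`hasDerivAt_exp_smul_const`). Bound: `r0` from `bc`, `Q'` for `Q = {p}`; `ball p ρ ⊆ D` such that `cd p y ≤ r0` for `y ∈ ball p ρ` (`CdB`); then `cd p (φ t y) = cd (φ t p) (φ t y) ≤ r0`, so `φ t` maps `ball p ρ` into the compact set `Q'`, and Cauchy's estimate bounds the derivative at `p`. -/
def S_Iso : Prop := ∀ (V : Type) [NormedAddCommGroup V] [NormedSpace ℂ V]
  [FiniteDimensional ℂ V] (D : Set V), Hyp D → ∀ (X : V → V) (φ : ℝ → V → V),
    DifferentiableOn ℂ X D → Flow D X φ → ∀ p ∈ D, X p = 0 → (∀ t, φ t p = p) ∧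
    (∀ t : ℝ, fderiv ℂ (φ t) p = NormedSpace.exp ((t : ℂ) • fderiv ℂ X p)) ∧
    ∃ M : ℝ, ∀ t : ℝ, ‖NormedSpace.exp ((t : ℂ) • fderiv ℂ X p)‖ ≤ M

/-- **CUm.** Cartan's uniqueness theorem. Uses `CdB`.

PROOF. As in `Iso` there are `ρ > 0` and `M` with `ball p ρ ⊆ D` and `‖g^[n] y‖ ≤ M` for `y ∈ ball p ρ` and all `n` (`cd p (g^[n] y) ≤ cd p y ≤ r0`, `bc`). `G y = g y - y` satisfies `G p = 0`, `fderiv G p = 0`. Suppose that `G` is not identically zero near `p` (otherwise `g = id` on `D` by the identity theorem, `AnalyticOnNhd.eqOn_of_preconnected_of_eventuallyEq`, `Osgood.analyticOnNhd`). Choose `v ∈ V` such that `ζ ↦ G (p + ζ v)` is not identically `0` near `0` and the order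
`m ≥ 2` of its zero is minimal among all directions. CLAIM: `‖G y‖ ≤ C ‖y - p‖ ^ m` near `p` (for `‖u‖ ≤ ρ/2` the function `ζ ↦ G (p + ζ u)` is bounded by a constant on `‖ζ‖ < 1` and has a zero of order `≥ m` at `0`: Schwarz lemma) and `‖G y - G y'‖ ≤ C ‖y - y'‖ (‖y - p‖ + ‖y' - p‖) ^ (m-1)` (Cauchy's estimate for `fderiv G y` on the ball of radius `‖y - p‖ / 2`, or `‖fderiv G y‖ ≤ C ‖y-p‖^(m-1)` from the same argument).
By induction on `n`: `‖g^[n] y - y - n G y‖ ≤ C_n ‖y - p‖ ^ (m + 1)` for `y` in a neighbourhood `N_n` of `p` (`g^[n+1] y = g^[n] y + G (g^[n] y)`, `‖G (g^[n] y) - G y‖ ≤ C (‖y-p‖ ^ m) (‖y-p‖ ^ (m-1))`, and `2 m - 1 ≥ m + 1`). For `‖v‖ ≤ ρ/2` the function `ζ ↦ g^[n] (p + ζ v) - p - ζ v` is holomorphic and bounded by `M'` (independent of `n`) on `‖ζ‖ < 1`, its expansion at `0` is `n a ζ^m + O(ζ^(m+1))`, `a ≠ 0` (`G (p + ζ v) = a ζ^m + O(ζ^(m+1))`);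
Cauchy's estimate for the `m`-th coefficient: `n ‖a‖ ≤ M'` for all `n`, a contradiction. -/
def S_CUm : Prop := ∀ (V : Type) [NormedAddCommGroup V] [NormedSpace ℂ V]
  [FiniteDimensional ℂ V] (D : Set V), Hyp D → ∀ g : V → V, DifferentiableOn ℂ g D →
    MapsTo g D D → ∀ p ∈ D, g p = p → fderiv ℂ g p = ContinuousLinearMap.id ℂ V →
    ∀ x ∈ D, g x = x

/-- **CUf.** Cartan's uniqueness theorem for complete fields. Uses `Iso`, `CUm`.

PROOF. `fderiv (φ t) p = exp (t • 0) = 1`, `φ t p = p`, so `φ t = id` on `D` by `CUm`, and `X x = d/dt φ t x = 0`. -/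
def S_CUf : Prop := ∀ (V : Type) [NormedAddCommGroup V] [NormedSpace ℂ V]
  [FiniteDimensional ℂ V] (D : Set V), Hyp D → ∀ X : V → V, Cpl D X → ∀ p ∈ D, X p = 0 →
    fderiv ℂ X p = 0 → ∀ x ∈ D, X x = 0

/-- **LA1.** Linear algebra. PROOF. First part: `ζ ↦ exp (ζ • L)` is entire and for `ζ = s + t I` equal to `exp (s L) exp (t I L)` (commuting), so bounded by `M M'`; by Liouville's theorem it is constant, and its derivative at `0` is `L`. Second part: `exp (t • N) = 1 + t • N` (`N * N = 0`; e.g. the derivative of `exp (-t N) (1 + t N)` is `-N exp(-tN) (1 + tN) + exp (-tN) N = -t exp (-tN) N² = 0`), so `‖t N‖ ≤ M + 1` for all `t`. -/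
def S_LA1 : Prop := ∀ (V : Type) [NormedAddCommGroup V] [NormedSpace ℂ V]
  [FiniteDimensional ℂ V],
  (∀ L : V →L[ℂ] V, (∃ M : ℝ, ∀ t : ℝ, ‖NormedSpace.exp ((t : ℂ) • L)‖ ≤ M) →
    (∃ M : ℝ, ∀ t : ℝ, ‖NormedSpace.exp ((t : ℂ) • (Complex.I • L))‖ ≤ M) → L = 0) ∧
  ∀ N : V →L[ℂ] V, N * N = 0 → (∃ M : ℝ, ∀ t : ℝ, ‖NormedSpace.exp ((t : ℂ) • N)‖ ≤ M) → N = 0

/-- **HypB.** The properties `Hyp` for a domain with a bounded realization and a cocompact group. Uses `CdB`.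

PROOF. Let `b`, `b'` be the two maps, `D' = b '' D = {y | ...}` open, bounded: `‖b x‖ ≤ R` on `D`, `R > 0`. The functions `x ↦ (b x) i / R` are in `UF D`, so `‖b x - b y‖ ≤ R cd x y`. `lo`: `Q` compact, `b '' Q` compact in the open set `D'`; `b'` is holomorphic on `D'`, hence Lipschitz on a neighbourhood of every point; a locally Lipschitz map is Lipschitz on compact sets: there is `C` with `‖x - y‖ = ‖b' (b x) - b' (b y)‖ ≤ C ‖b x - b y‖ ≤ C R cd x y` on `Q`. `bc`: let `K` be the compact set of the group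
action; `b '' K` is compact in `D'`; let `r > 0` be such that the closed `r`-neighbourhood `B` of `b '' K` is (compact and) contained in `D'`, `K' = b' '' B ⊆ D` compact; `r0 = r / R`: `x ∈ K`, `cd x y ≤ r0` imply `b y ∈ B`, `y = b' (b y) ∈ K'`. For a compact `Q ⊆ D`: `Q` is covered by finitely many of the sets `{x ∈ D | ρ γ x ∈ interior K1}`, where `K1 ⊆ D` is a compact neighbourhood of `K` (use `K1` instead of `K` above); if `ρ γ x ∈ K1` and `cd x y ≤ r0` then `cd (ρ γ x) (ρ γ y) ≤ r0`,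
`ρ γ y ∈ K1'`, `y ∈ ρ γ⁻¹ '' K1'`; `Q'` = the finite union. `nd`: `V` and `Cn n` have the same dimension (`fderiv b x`, `fderiv b' (b x)` are inverse to each other); let `ι : Cn n → V` be a linear isomorphism, `f = ε • ι ∘ b` with `ε > 0` small: `f ∈ UM D`, `fderiv f x` is invertible, so `rdet ≠ 0`. -/
def S_HypB : Prop := ∀ (V : Type) [NormedAddCommGroup V] [NormedSpace ℂ V]
  [FiniteDimensional ℂ V] (D : Set V), IsOpen D → IsPreconnected D → D.Nonempty →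
    ∀ (n : ℕ) (b : V → Cn n) (b' : Cn n → V) (R : ℝ), DifferentiableOn ℂ b D →
    IsOpen (b '' D) → DifferentiableOn ℂ b' (b '' D) → (∀ x ∈ D, b' (b x) = x) →
    (∀ x ∈ D, ‖b x‖ ≤ R) → ∀ (Γ : Type) [Group Γ] (ρ : Γ → V → V), GAct D ρ → Hyp D

end KVB
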