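import Pool.Agent.Lib.KV.B.SpecU

/-!
# KV (MP_64edc4_ag), part B, block S: the complete fields of a Siegel domain

The complete fields of a Siegel domain of the second kind are polynomial, of weights `-1, ..., 1` for
the grading with `z` of weight `1/2` and `w` of weight `1` (the proof is elementary: restriction to
half planes, boundary values). The index `ν` below is twice the weight.
-/

set_option autoImplicit false

open Set Filter Topology Metric MeasureTheory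

namespace KVB

open KP

section defs

variable {m k : ℕ}

/-- The real pairing. -/
def dt (l y : Fin k → ℝ) : ℝ := ∑ j, l j * y j

/-- The complex pairing with a real vector. -/
def dc (l : Fin k → ℝ) (w : Cn k) : ℂ := ∑ j, (l j : ℂ) * w j

/-- The nonzero elements of the dual cone. -/
def Lam (Om : Set (Fin k → ℝ)) : Set (Fin k → ℝ) := {l | l ≠ 0 ∧ ∀ y ∈ Om, 0 ≤ dt l y}

/-- The tube over the cone. -/
def Tb (Om : Set (Fin k → ℝ)) : Set (Cn k) := {w | imv w ∈ Om}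

/-- The third difference with the step `v`. -/
def D3 {E G : Type} [AddCommGroup E] [AddCommGroup G] (f : E → G) (v p : E) : G :=
  f (p + 3 • v) - 3 • f (p + 2 • v) + 3 • f (p + v) - f p

/-- Weight `-2`. -/
def fm2 (b0 : Cn k) : Vs m k → Vs m k := fun _ => (0, b0)

/-- Weight `-1`. -/
def fm1 (a0 : Cn m) (β0 : Cn m →ₗ[ℂ] Cn k) : Vs m k → Vs m k := fun p => (a0, β0 p.1)

/-- Weight `0`. -/
def f0 (M0 : Cn m →ₗ[ℂ] Cn m) (b1 : Cn k →ₗ[ℂ] Cn k) : Vs m k → Vs m k :=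
  fun p => (M0 p.1, b1 p.2)

/-- Weight `1`. -/
def f1 (c0 : Cn m →ₗ[ℂ] Cn m →ₗ[ℂ] Cn m) (a1 : Cn k →ₗ[ℂ] Cn m)
    (β1 : Cn k →ₗ[ℂ] Cn m →ₗ[ℂ] Cn k) : Vs m k → Vs m k :=
  fun p => (c0 p.1 p.1 + a1 p.2, β1 p.2 p.1)

/-- Weight `2`. -/
def f2 (M1 : Cn k →ₗ[ℂ] Cn m →ₗ[ℂ] Cn m) (b2 : Cn k →ₗ[ℂ] Cn k →ₗ[ℂ] Cn k) :
    Vs m k → Vs m k := fun p => (M1 p.2 p.1, b2 p.2 p.2)

/-- Weight `3`. -/
def f3 (c1 : Cn k →ₗ[ℂ] Cn m →ₗ[ℂ] Cn m →ₗ[ℂ] Cn m) (a2 : Cn k →ₗ[ℂ] Cn k →ₗ[ℂ] Cn m)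
    (β2 : Cn k →ₗ[ℂ] Cn k →ₗ[ℂ] Cn m →ₗ[ℂ] Cn k) : Vs m k → Vs m k :=
  fun p => (c1 p.2 p.1 p.1 + a2 p.2 p.2, β2 p.2 p.2 p.1)

/-- Weight `4`. -/
def f4 (M2 : Cn k →ₗ[ℂ] Cn k →ₗ[ℂ] Cn m →ₗ[ℂ] Cn m) : Vs m k → Vs m k :=
  fun p => (M2 p.2 p.2 p.1, 0)

/-- Weight `5`. -/
def f5 (c2 : Cn k →ₗ[ℂ] Cn k →ₗ[ℂ] Cn m →ₗ[ℂ] Cn m →ₗ[ℂ] Cn m) : Vs m k → Vs m k :=
  fun p => (c2 p.2 p.2 p.1 p.1, 0)

end defs

/-- **LamP.** Cones without lines and their dual cones.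

PROOF. `(1)` if `dt l y = 0` for some `y ∈ Om` then the linear form `dt l` is `≥ 0` near `y` and `0` at `y`, so it is `0`, so `l = 0`. `(2)` continuity. `(3)` `Om + Om ⊆ Om` (`a + b = 2 • ((a + b)/2)`); `y + y' = y'' + (y' + (y - y''))` with `y'' ∈ Om` so near to `y` that `y' + (y - y'') ∈ Om`. `(4)` Let `dt l y = 0` for all `l ∈ Lam Om`. If `y ∉ closure Om` (a closed convex cone) then the separation theorem (`geometric_hahn_banach_closed_point`, or `ProperCone` duality) gives a linear form which is `≥ 0` on `Om` (cone) and negative at `y`, so an `l ∈ Lam Om` with `dt l y < 0`: impossible. So `y ∈ closure Om`, in the same way `-y ∈ closure Om`, and `y = 0` (`Sie.pnt`). `(5)` `s0 = sup {s ≥ 0 | x - s • u ∈ closure Om}`; the set contains a small `s > 0` (`x ∈ Om` open) and is bounded: otherwise `s⁻¹ • x - u ∈ closure Om` for arbitrarily large `s`, so `-u ∈ closure Om`,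 `u = 0`. `y0 = x - s0 • u ∈ closure Om`, `y0 ∉ Om` (otherwise `s0` could be increased). Separate `y0` from the open convex cone `Om` (`geometric_hahn_banach_open_point`): `l ≠ 0` with `dt l y ≥ dt l y0` hence (cone) `dt l ≥ 0` on `Om` and `dt l y0 ≤ 0`; so `l ∈ Lam Om`, `dt l y0 = 0` by `(2)`. `0 < dt l x = s0 * dt l u`. `(6)` `S = closure Om ∩ sphere 0 1` is compact; for every `y ∈ S` there is `l ∈ Lam Om` with `dt l y > 0` (otherwise `dt l y = 0` for all `l`, `y = 0` by `(4)`); by compactness a finite sum `λ` of such `l` is positive on `S`, `c` = its minimum (if `S = ∅`: `λ = 0`, `c = 1`). `(7)` `t • y → 0`. -/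
def S_LamP : Prop := ∀ (m k : ℕ) (F : Fin k → Matrix (Fin m) (Fin m) ℂ) (Om : Set (Fin k → ℝ)),
  Sie F Om →
  (∀ l ∈ Lam Om, ∀ y ∈ Om, 0 < dt l y) ∧
  (∀ l ∈ Lam Om, ∀ y ∈ closure Om, 0 ≤ dt l y) ∧
  (∀ y ∈ closure Om, ∀ y' ∈ Om, y + y' ∈ Om) ∧
  (∀ y : Fin k → ℝ, (∀ l ∈ Lam Om, dt l y = 0) → y = 0) ∧
  (∀ x ∈ Om, ∀ u ∈ closure Om, u ≠ 0 → ∃ s0 : ℝ, 0 < s0 ∧ ∃ l ∈ Lam Om,
    x - s0 • u ∈ closure Om ∧ dt l (x - s0 • u) = 0 ∧ 0 < dt l u) ∧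
  (∃ (lam : Fin k → ℝ) (c : ℝ), 0 < c ∧ ∀ y ∈ closure Om, c * ‖y‖ ≤ dt lam y) ∧
  (0 : Fin k → ℝ) ∈ closure Om

/-- **HPL.** Fields of a half plane.

PROOF. Schwarz-Pick for the upper half plane `H`: for holomorphic `f : H → H`: `‖deriv f ζ‖ * ζ.im ≤ (f ζ).im` (Cayley transform at `ζ` and `f ζ` and the Schwarz lemma; see also `Pool/Agent/Lib/KP/T/HP.lean`). Cauchy's estimate: `deriv (F s) ζ = 1 + s * deriv G ζ + O(s²)`. So `1 + s (deriv G ζ).re + O(s²) ≤ ‖deriv (F s) ζ‖ ≤ 1 + s (G ζ).im / ζ.im + O(s²)` for small `s` of both signs: `(G ζ).im = ζ.im * (deriv G ζ).re` on `H`. Put `ζ = x + i y` and differentiate this identity in `y`: `Re G' = Re G' - y Im G''`, so `Im G'' = 0` on `H`, so `G''` is a real constant `2 c` (a holomorphic function with zero imaginary part on a convex open set is constant, e.g. its derivative is zero by Cauchy-Riemann), `G = a + b ζ + c ζ²` with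 complex `a`, `b`; the identity becomes `Im a + x Im b + y Re b = y Re b` for all `x`, `y > 0`: `a`, `b` are real. -/
def S_HPL : Prop := ∀ (F : ℝ → ℂ → ℂ) (G : ℂ → ℂ), DifferentiableOn ℂ G {ζ | 0 < ζ.im} →
  (∀ s : ℝ, |s| ≤ 1 → DifferentiableOn ℂ (F s) {ζ | 0 < ζ.im} ∧
    ∀ ζ : ℂ, 0 < ζ.im → 0 < (F s ζ).im) →
  (∀ Q ⊆ {ζ : ℂ | 0 < ζ.im}, IsCompact Q → ∃ C : ℝ, ∀ s : ℝ, |s| ≤ 1 → ∀ ζ ∈ Q,
    ‖F s ζ - ζ - s * G ζ‖ ≤ C * s ^ 2) →
  ∃ a b c : ℝ, ∀ ζ : ℂ, 0 < ζ.im → G ζ = a + b * ζ + c * ζ ^ 2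

/-- **HalfP.** Complete fields on half planes. Uses `LamP`, `HPL`, `FlB`.

PROOF. `D = SD F Om`, `h = hf F`, `y0 = imv w0 - rev (h z0 z0)`. For `0 < ζ.im` the point `P ζ = (z0, w0 + ζ • cx η)` is in `D` (`y0 + ζ.im • η ∈ Om` by `LamP` (3)). The complex affine function `L (z, w) = dc l (w - 2 i h(z, z0)) + i dc l (h z0 z0) - Re (dc l w0)` has on `D` the imaginary part `dt l (imv w) - 2 Re (dc l (h z z0)) + dt l (h z0 z0) = dt l (imv w - h z z) + dt l (h (z - z0) (z - z0)) > 0` (`LamP` (1), (2), `Sie.psd`), and `L (P ζ) = ζ * dt l η` (as `dt l y0 = 0`), `dt l η > 0`. Let `φ` be the flow of `X`. Apply `HPL` to `F s ζ = L (φ s (P ζ)) / dt l η` and `G ζ = dc l ((X (P ζ)).2 - 2 i h((X (P ζ)).1, z0)) / dt l η` (`L` is affine, its linear part applied to `X`); the estimate is `FlB` (b) for the compact set `P '' Q`. -/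
def S_HalfP : Prop := ∀ (m k : ℕ) (F : Fin k → Matrix (Fin m) (Fin m) ℂ)
  (Om : Set (Fin k → ℝ)), Sie F Om → Hyp (SD F Om) → ∀ X : Vs m k → Vs m k, Cpl (SD F Om) X →
  ∀ l ∈ Lam Om, ∀ (z0 : Cn m) (w0 : Cn k), imv w0 - rev (hf F z0 z0) ∈ closure Om →
  dt l (imv w0 - rev (hf F z0 z0)) = 0 → ∀ η ∈ Om, ∃ a b c : ℝ, ∀ ζ : ℂ, 0 < ζ.im →
    dc l ((X (z0, w0 + ζ • cx η)).2 - (2 * Complex.I) • hf F (X (z0, w0 + ζ • cx η)).1 z0) =
      a + b * ζ + c * ζ ^ 2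

/-- **TRi.** Holomorphic functions which vanish on the real points of an open set.

PROOF. Let `u0 ∈ O` and `r > 0` such that the real ball (max norm) `‖u - u0‖ < r` is in `O` and the complex ball `ball (w0 + cx u0) r` is in `T`. CLAIM for `j ≤ k`: `f (w0 + v) = 0` for all `v ∈ ball (cx u0) r` whose coordinates `v i` with `i ≥ j` are real. Induction: `j = 0` is the hypothesis; step: fix all coordinates but the `j`-th; the function of the `j`-th coordinate `ζ` is holomorphic on the disc `‖ζ - u0 j‖ < r` and vanishes at its real points, so it is zero (identity theorem in one variable). For `j = k`: `f = 0` on a ball; then on `T` (`AnalyticOnNhd.eqOn_zero_of_preconnected_of_eventuallyEq_zero`, `Osgood.analyticOnNhd`). For `k = 0` everything is one point. -/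
def S_TRi : Prop := ∀ (k : ℕ) (E : Type) [NormedAddCommGroup E] [NormedSpace ℂ E]
  [FiniteDimensional ℂ E] (T : Set (Cn k)), IsOpen T → IsPreconnected T → ∀ f : Cn k → E,
  DifferentiableOn ℂ f T → ∀ (w0 : Cn k) (O : Set (Fin k → ℝ)), IsOpen O → O.Nonempty →
  (∀ u ∈ O, w0 + cx u ∈ T ∧ f (w0 + cx u) = 0) → ∀ w ∈ T, f w = 0

/-- **Pola.** Holomorphic solutions of `b z = κ h(a z, z)` are zero.

PROOF. Let `z0 ∈ Z`, `v : Cn m`, `r > 0` with `z0 + ζ v ∈ Z` for `‖ζ‖ < 2 r`. `hf F (a (z0 + ζ v)) (z0 + ζ v) = hf F (a (z0 + ζ v)) z0 + conj ζ • hf F (a (z0 + ζ v)) v`. So for the holomorphic functions `f ζ = b (z0 + ζ v) - κ • hf F (a (z0 + ζ v)) z0`, `g ζ = κ • hf F (a (z0 + ζ v)) v`: `f ζ = conj ζ • g ζ` for `‖ζ‖ < 2 r`. For `0 < ρ < 2 r`: `ζ • f ζ = ρ² • g ζ` on the circle `‖ζ‖ = ρ`, so on the disc (maximum principle, e.g. `Complex.eqOn_closedBall_of_eqOn_frontier`-type lemma,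 or Cauchy's formula), at `ζ = 0`: `ρ² g 0 = 0`. So `g 0 = 0`: `hf F (a z0) v = 0` for all `v`; `v = a z0` and `Sie.pd` give `a z0 = 0`, and `b z0 = 0`. -/
def S_Pola : Prop := ∀ (m k : ℕ) (F : Fin k → Matrix (Fin m) (Fin m) ℂ)
  (Om : Set (Fin k → ℝ)), Sie F Om → ∀ (Z : Set (Cn m)), IsOpen Z → ∀ (a : Cn m → Cn m)
  (b : Cn m → Cn k) (κ : ℂ), κ ≠ 0 → DifferentiableOn ℂ a Z → DifferentiableOn ℂ b Z →
  (∀ z ∈ Z, b z = κ • hf F (a z) z) → ∀ z ∈ Z, a z = 0 ∧ b z = 0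

/-- **Del.** The third differences of complete fields in the directions of the cone vanish. Uses `LamP`, `HalfP`, `TRi`, `Pola`.

PROOF. `h = hf F`, `v = (0, σ • cx η)`; `p + j • v ∈ D` for `p ∈ D`, `j ≥ 0`. Fix `z` and put for `w ∈ Tb Om`: `R w = (X (z, w + i h(z,z))).2 - 2 i h((X (z, w + i h(z,z))).1, z)` (`(z, w + i h(z,z)) ∈ D`), holomorphic on `Tb Om` (open, convex). For `l ∈ Lam Om`, `x : Fin k → ℝ` `HalfP` for `z0 = z`, `w0 = cx x + i h(z,z)` (`imv w0 - rev (h z z) = 0`) says: `ζ ↦ dc l (R (cx x + ζ • cx η))` is a polynomial of degree at most two on `0 < ζ.im`. Its third difference with the step `σ` at `ζ = i` is zero. So `dc l (D3 R (σ • cx η) (cx x + i • cx η)) = 0` for all `l ∈ Lam Om`; applying `LamP` (4) to the real and imaginary parts: `D3 R (σ • cx η)` vanishes on `cx x + i • cx η`, `x : Fin k → ℝ`, so on `Tb Om` by `TRi`. This says `(D3 X v (z, w)).2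 = 2 i h((D3 X v (z, w)).1, z)` for all `(z, w) ∈ D`. For fixed `w` both components of `D3 X v (z, w)` are holomorphic in `z ∈ Z = {z | (z, w) ∈ D}`, so they are zero by `Pola`. -/
def S_Del : Prop := ∀ (m k : ℕ) (F : Fin k → Matrix (Fin m) (Fin m) ℂ)
  (Om : Set (Fin k → ℝ)), Sie F Om → Hyp (SD F Om) → ∀ X : Vs m k → Vs m k, Cpl (SD F Om) X →
  ∀ η ∈ Om, ∀ σ : ℂ, 0 ≤ σ.im → ∀ p ∈ SD F Om, D3 X ((0, σ • cx η) : Vs m k) p = 0

/-- **Ext.** Extension to an entire map. Uses `LamP`, `TRi`.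

PROOF. Fix `e ∈ Om`, `e' = (0, cx e) : Vs m k`. For `p0 : Vs m k` there are a neighbourhood `N` of `p0` and `S0` with `p + τ • e' ∈ D` for `p ∈ N`, `τ.im ≥ S0` (`e + (imv p.2 - rev (h p.1 p.1)) / S ∈ Om` for large `S`, locally uniformly). For such `p` the function `f τ = X (p + τ • e')` is holomorphic on `τ.im > S0` and `f (τ + 3σ) - 3 f (τ + 2σ) + 3 f (τ + σ) - f τ = 0` for real `σ`; differentiating three times in `σ` at `0`: `(27 - 24 + 3) f''' τ = 0`. So `f τ = α + β τ + γ τ²` on `τ.im > S0`, and for `S > S0`: `3 f (i S) - 3 f (2 i S) + f (3 i S) = α`. So `Y p = 3 • X (p + (i S) • e') - 3 • X (p + (2 i S) • e') + X (p + (3 i S) • e')` does not depend on the (large) `S`: this defines an entire map `Y`. If `p ∈ D` then `f` is defined and of the same form near the closed upper half plane, so `Y p = f 0 = X p`. For `η ∈ Om` the map `p ↦ D3 Y (0, cx η) p` is entire and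 zero on `D` (hypothesis with `σ = 1`), so zero (identity theorem). For fixed `p` the map `v ↦ D3 Y (0, v) p` is entire on `Cn k` and vanishes at `cx η`, `η ∈ Om`, so everywhere (`TRi`, `w0 = 0`, `O = Om`, `T = univ`). -/
def S_Ext : Prop := ∀ (m k : ℕ) (F : Fin k → Matrix (Fin m) (Fin m) ℂ)
  (Om : Set (Fin k → ℝ)), Sie F Om → ∀ X : Vs m k → Vs m k, DifferentiableOn ℂ X (SD F Om) →
  (∀ η ∈ Om, ∀ σ : ℂ, 0 ≤ σ.im → ∀ p ∈ SD F Om, D3 X ((0, σ • cx η) : Vs m k) p = 0) →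
  ∃ Y : Vs m k → Vs m k, Differentiable ℂ Y ∧ (∀ p ∈ SD F Om, Y p = X p) ∧
    ∀ (p : Vs m k) (v : Cn k), D3 Y ((0, v) : Vs m k) p = 0

/-- **BR.** Boundary reality. Uses `LamP`, `HalfP`.

PROOF. `h = hf F`, `w0 = cx x + i • (cx y0 + h z z)`, so `imv w0 - rev (h z z) = y0` (`hf_self`). `HalfP` for `z0 = z`, `w0` and some `η ∈ Om`: `dc l (...) = a + b ζ + c ζ²` at `(z, w0 + ζ • cx η)`, `a`, `b`, `c` real; let `ζ = i ε → 0` (`X` is continuous): the value at `(z, w0)` is `a`. Second part: `y0 = 0` (`LamP` (7)) is allowed for every `l ∈ Lam Om`; the real vector of the imaginary parts is killed by all `l ∈ Lam Om`, so it is zero (`LamP` (4)). -/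
def S_BR : Prop := ∀ (m k : ℕ) (F : Fin k → Matrix (Fin m) (Fin m) ℂ)
  (Om : Set (Fin k → ℝ)), Sie F Om → Hyp (SD F Om) → ∀ X : Vs m k → Vs m k, Continuous X →
  Cpl (SD F Om) X →
  (∀ l ∈ Lam Om, ∀ y0 ∈ closure Om, dt l y0 = 0 → ∀ (x : Fin k → ℝ) (z : Cn m),
    (dc l ((X (z, cx x + Complex.I • (cx y0 + hf F z z))).2 -
      (2 * Complex.I) • hf F (X (z, cx x + Complex.I • (cx y0 + hf F z z))).1 z)).im = 0) ∧
  ∀ (x : Fin k → ℝ) (z : Cn m) (j : Fin k),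
    (((X (z, cx x + Complex.I • hf F z z)).2 -
      (2 * Complex.I) • hf F (X (z, cx x + Complex.I • hf F z z)).1 z) j).im = 0

/-- **CirL.** Entire functions with real boundary values on the circle.

PROOF. On the circle `R ζ * conj ζ = conj (R ζ) * ζ`, so `R ζ = ζ² * conj (R (1 / conj ζ))`; both sides are holomorphic in `ζ ≠ 0` (`conj ∘ R ∘ conj` is entire), the set `{ζ ≠ 0}` is preconnected, and the circle has accumulation points, so the identity holds for all `ζ ≠ 0`. For `‖ζ‖ ≥ 1`: `‖R ζ‖ ≤ C ‖ζ‖²` with `C = max ‖R‖` on the closed unit disc. Cauchy's estimate for the third derivative on large circles: `R''' = 0`, so `R ζ = r0 + r1 ζ + r2 ζ²`. The identity becomes `r0 + r1 ζ + r2 ζ² = conj r0 ζ² + conj r1 ζ + conj r2` for `ζ ≠ 0`: `r2 = conj r0`, `r1` real. -/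
def S_CirL : Prop := ∀ R : ℂ → ℂ, Differentiable ℂ R →
  (∀ ζ : ℂ, ‖ζ‖ = 1 → (R ζ * (starRingEnd ℂ) ζ).im = 0) →
  ∃ (r : ℂ) (s : ℝ), ∀ ζ, R ζ = r + s * ζ + (starRingEnd ℂ) r * ζ ^ 2

/-- **ZP.** Degrees in `z`. Uses `TRi`, `Pola`, `CirL`.

PROOF. `h = hf F`, `Y = (A, B)`. For fixed `w` let `A1 w`, `A2 w` be the first and second derivative at `z = 0` of `z ↦ A (z, w)`, `B1 w` the first derivative of `z ↦ B (z, w)`; they are entire in `w`. Put `A' (z, w) = A (z, w) - A (0, w) - A1 w z - (1/2) A2 w z z`, `B' (z, w) = B (z, w) - B (0, w) - B1 w z`. Fix `z`, `x`, `w = cx x + i h(z,z)`. For `‖ζ‖ = 1`: `h(ζ z, ζ z) = h(z, z)`, so the hypothesis at `ζ z` says that `B (ζ z, w) - 2 i conj ζ h(A (ζ z, w), z)` is a real vector. So each component `R` of `ζ ↦ ζ • B (ζ z, w) - 2 i h(A (ζ z, w), z)` satisfies the hypothesis of `CirL`: `R` is a polynomial of degree at most two, `R 1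 = R 0 + R' 0 + R'' 0 / 2`. With `R 0 = -2 i h(A(0,w), z)`, `R' 0 = B (0, w) - 2 i h(A1 w z, z)`, `R'' 0 / 2 = B1 w z - i h(A2 w z z, z)` this says `B' (z, w) = 2 i h(A' (z, w), z)`. For fixed `z` both sides are entire in `w` and agree at `w = i h(z,z) + cx x`, so they agree for all `w` (`TRi`). For fixed `w` `Pola` (`Z = univ`) gives `A' = 0`, `B' = 0`: `A (·, w)` is a polynomial of degree at most two and `B (·, w)` is affine, so the differences vanish. -/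
def S_ZP : Prop := ∀ (m k : ℕ) (F : Fin k → Matrix (Fin m) (Fin m) ℂ)
  (Om : Set (Fin k → ℝ)), Sie F Om → ∀ Y : Vs m k → Vs m k, Differentiable ℂ Y →
  (∀ (x : Fin k → ℝ) (z : Cn m) (j : Fin k),
    (((Y (z, cx x + Complex.I • hf F z z)).2 -
      (2 * Complex.I) • hf F (Y (z, cx x + Complex.I • hf F z z)).1 z) j).im = 0) →
  (∀ (w : Cn k) (v z : Cn m), D3 (fun z => (Y (z, w)).1) v z = 0) ∧
  ∀ (w : Cn k) (v z : Cn m), (Y (z + 2 • v, w)).2 - 2 • (Y (z + v, w)).2 + (Y (z, w)).2 = 0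

/-- **PolF.** Maps which are polynomials of degree at most two in each of two variables.

PROOF. STEP 1: let `f : E → G` be entire with `D3 f v p = 0` for all `v`, `p`. Then `f w = f 0 + f1 w + f2 w w` with `f1 = fderiv ℂ f 0`, `f2 = (1/2) • ` the second derivative at `0` (symmetric): for fixed `w` the function `g t = f (t • w)` satisfies `g (t + 3 s) - 3 g (t + 2 s) + 3 g (t + s) - g t = 0` for all complex `s`, `t`, so (three derivatives in `s` at `0`) `6 g''' = 0`, `g 1 = g 0 + g' 0 + g'' 0 / 2`. STEP 2: for fixed `z` apply STEP 1 to `f (z, ·)`: `f (z, w) = F0 z + F1 z w + F2 z w w` with `F0 z = f (z, 0)`, `F1 z w = 2 f (z, w) - (1/2) f (z, 2 w) - (3/2) f (z, 0)`, `F2 z u v = (1/2) (f (z, u + v) - f (z, u) - f (z, v) + f (z, 0))`. So `F1 z`, `F2 z` are linear maps (with the basis of `E2` the values in the finite dimensional space of (bi)linear maps are entire functions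 of `z`: every matrix entry is), and their third differences in `z` vanish. STEP 3: apply STEP 1 to `F0`, `F1`, `F2` (values in `G`, `E2 →L[ℂ] G`, `E2 →L[ℂ] E2 →L[ℂ] G`) and exchange the order of the arguments (`LinearMap.flip`). The symmetry in the `w`-arguments: `F2 z` is symmetric for all `z`, so its coefficients are. -/
def S_PolF : Prop := ∀ (E1 E2 G : Type) [NormedAddCommGroup E1] [NormedSpace ℂ E1]
  [FiniteDimensional ℂ E1] [NormedAddCommGroup E2] [NormedSpace ℂ E2] [FiniteDimensional ℂ E2]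
  [NormedAddCommGroup G] [NormedSpace ℂ G] [FiniteDimensional ℂ G] (f : E1 × E2 → G),
  Differentiable ℂ f → (∀ (z : E1) (v w : E2), D3 (fun w => f (z, w)) v w = 0) →
  (∀ (w : E2) (v z : E1), D3 (fun z => f (z, w)) v z = 0) →
  ∃ (g00 : G) (g01 : E2 →ₗ[ℂ] G) (g02 : E2 →ₗ[ℂ] E2 →ₗ[ℂ] G) (g10 : E1 →ₗ[ℂ] G)
    (g11 : E2 →ₗ[ℂ] E1 →ₗ[ℂ] G) (g12 : E2 →ₗ[ℂ] E2 →ₗ[ℂ] E1 →ₗ[ℂ] G)
    (g20 : E1 →ₗ[ℂ] E1 →ₗ[ℂ] G) (g21 : E2 →ₗ[ℂ] E1 →ₗ[ℂ] E1 →ₗ[ℂ] G)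
    (g22 : E2 →ₗ[ℂ] E2 →ₗ[ℂ] E1 →ₗ[ℂ] E1 →ₗ[ℂ] G),
    (∀ u v, g02 u v = g02 v u) ∧ (∀ u v, g12 u v = g12 v u) ∧ (∀ u v, g22 u v = g22 v u) ∧
    ∀ z w, f (z, w) = g00 + g01 w + g02 w w + g10 z + g11 w z + g12 w w z + g20 z z +
      g21 w z z + g22 w w z z

/-- The coefficients of the fields. -/
structure Cf (m k : ℕ) where
  a0 : Cn m
  a1 : Cn k →ₗ[ℂ] Cn m
  a2 : Cn k →ₗ[ℂ] Cn k →ₗ[ℂ] Cn m
  M0 : Cn m →ₗ[ℂ] Cn m
  M1 : Cn k →ₗ[ℂ] Cn m →ₗ[ℂ] Cn m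
  M2 : Cn k →ₗ[ℂ] Cn k →ₗ[ℂ] Cn m →ₗ[ℂ] Cn m
  c0 : Cn m →ₗ[ℂ] Cn m →ₗ[ℂ] Cn m
  c1 : Cn k →ₗ[ℂ] Cn m →ₗ[ℂ] Cn m →ₗ[ℂ] Cn m
  c2 : Cn k →ₗ[ℂ] Cn k →ₗ[ℂ] Cn m →ₗ[ℂ] Cn m →ₗ[ℂ] Cn m
  b0 : Cn k
  b1 : Cn k →ₗ[ℂ] Cn k
  b2 : Cn k →ₗ[ℂ] Cn k →ₗ[ℂ] Cn k
  β0 : Cn m →ₗ[ℂ] Cn k
  β1 : Cn k →ₗ[ℂ] Cn m →ₗ[ℂ] Cn k
  β2 : Cn k →ₗ[ℂ] Cn k →ₗ[ℂ] Cn m →ₗ[ℂ] Cn k
  sa : ∀ u v, a2 u v = a2 v u
  sM : ∀ u v, M2 u v = M2 v u
  sb : ∀ u v, b2 u v = b2 v u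
  sβ : ∀ u v, β2 u v = β2 v u

/-- **PolX.** Complete fields are polynomial. Uses `Del`, `Ext`, `BR`, `ZP`, `PolF`.

PROOF. `Y` from `Del` and `Ext`; `Y` is complete on `D` (`Cpl.congr`) and continuous, so the second part of `BR` is the hypothesis of `ZP` for `Y`. `Y.1` and `Y.2` satisfy the hypotheses of `PolF` (`E1 = Cn m`, `E2 = Cn k`; if the second differences of `z ↦ (Y (z, w)).2` vanish then so do the third differences). For `(Y ·).2` the second difference at `z = 0` gives `g20 v v + g21 w v v + g22 w w v v = 0` for all `v`, `w`, so these terms can be omitted. -/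
def S_PolX : Prop := ∀ (m k : ℕ) (F : Fin k → Matrix (Fin m) (Fin m) ℂ)
  (Om : Set (Fin k → ℝ)), Sie F Om → Hyp (SD F Om) → ∀ X : Vs m k → Vs m k, Cpl (SD F Om) X →
  ∃ C : Cf m k, ∀ p ∈ SD F Om, X p = fm2 C.b0 p + fm1 C.a0 C.β0 p + f0 C.M0 C.b1 p +
    f1 C.c0 C.a1 C.β1 p + f2 C.M1 C.b2 p + f3 C.c1 C.a2 C.β2 p + f4 C.M2 p + f5 C.c2 p

/-- **Hei.** Linear and affine automorphisms and their fields.

PROOF. All maps are (restrictions of) affine complex linear maps. `imv w - rev (h z z)` is multiplied by `t²`, or unchanged: `h(z + a, z + a) = h z z + 2 Re h(z, a) + h a a` (`hf_conj`), and `h(i z, i z) = h z z`. Flows: `(z, w + t • cx r)`; `(z + t a, w + 2 i t h(z, a) + i t² h(a, a))`, with the derivative `(a, 2 i h(z + t a, a))`; `(exp t • z, exp (2 t) • w)`. -/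
def S_Hei : Prop := ∀ (m k : ℕ) (F : Fin k → Matrix (Fin m) (Fin m) ℂ)
  (Om : Set (Fin k → ℝ)), Sie F Om →
  (∀ r : Fin k → ℝ, Cpl (SD F Om) (fm2 (m := m) (cx r))) ∧
  (∀ a : Cn m, Cpl (SD F Om) (fun p => (a, (2 * Complex.I) • hf F p.1 a))) ∧
  Cpl (SD F Om) (fun p => (p.1, (2 : ℂ) • p.2)) ∧
  (∀ (a : Cn m) (r : Fin k → ℝ), Aut2 (SD F Om)
    (fun p => (p.1 + a, p.2 + cx r + (2 * Complex.I) • hf F p.1 a + Complex.I • hf F a a))
    (fun p => (p.1 - a, p.2 - cx r - (2 * Complex.I) • hf F p.1 a + Complex.I • hf F a a))) ∧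
  Aut2 (SD F Om) (fun p => (Complex.I • p.1, p.2)) (fun p => ((-Complex.I) • p.1, p.2)) ∧
  ∀ t : ℝ, 0 < t → Aut2 (SD F Om) (fun p => ((t : ℂ) • p.1, ((t : ℂ) ^ 2) • p.2))
    (fun p => (((t : ℂ)⁻¹) • p.1, (((t : ℂ)⁻¹) ^ 2) • p.2))

/-- **Wts.** The homogeneous parts of complete fields are complete. Uses `Hei`, `AdC`, `EvC`.

PROOF. For `t = 2^i`, `i = 0, ..., 7`, let `δ` be the dilation of `Hei` and `δ'` its inverse. `Ad δ δ' X (z, w) = (t A (z/t, w/t²), t² B (z/t, w/t²))` (for `p ∈ D`, `δ' p ∈ D`, where `X` is given by the formula), which is `∑ ν, t^(-ν) • X_ν` with the eight parts `X_ν = fm2, fm1, f0, ..., f5`, `ν = -2, ..., 5`. These fields are complete (`AdC`, `Cpl.congr`). The matrix `(2^(-ν))^i` is an invertible real Vandermonde matrix (`Matrix.det_vandermonde_ne_zero_iff`), so each `X_ν` is on `D` a real combination of the eight complete fields: `EvC`, `Cpl.congr`.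 -/
def S_Wts : Prop := ∀ (m k : ℕ) (F : Fin k → Matrix (Fin m) (Fin m) ℂ)
  (Om : Set (Fin k → ℝ)), Sie F Om → Hyp (SD F Om) → ∀ X : Vs m k → Vs m k, Cpl (SD F Om) X →
  ∀ C : Cf m k, (∀ p ∈ SD F Om, X p = fm2 C.b0 p + fm1 C.a0 C.β0 p + f0 C.M0 C.b1 p +
    f1 C.c0 C.a1 C.β1 p + f2 C.M1 C.b2 p + f3 C.c1 C.a2 C.β2 p + f4 C.M2 p + f5 C.c2 p) →
  Cpl (SD F Om) (fm2 C.b0) ∧ Cpl (SD F Om) (fm1 C.a0 C.β0) ∧ Cpl (SD F Om) (f0 C.M0 C.b1) ∧
  Cpl (SD F Om) (f1 C.c0 C.a1 C.β1) ∧ Cpl (SD F Om) (f2 C.M1 C.b2) ∧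
  Cpl (SD F Om) (f3 C.c1 C.a2 C.β2) ∧ Cpl (SD F Om) (f4 C.M2) ∧ Cpl (SD F Om) (f5 C.c2)

/-- **K5.** There are no fields of weight `5`. Uses `BR`, `TRi`, `Pola`.

PROOF. `h = hf F`. `BR` (second part) for `X = f5 c2`: `Re h(c2 w w z z, z) = 0` (as a real vector) for `w = cx x + i h(z,z)`. Replace `z` by `ζ z`, `‖ζ‖ = 1`: `w` is unchanged and `h(c2 w w (ζ z) (ζ z), ζ z) = ζ h(c2 w w z z, z)`. With `ζ = 1` and `ζ = i`: `h(c2 w w z z, z) = 0`. For fixed `z` this is an entire function of `w`, so it vanishes for all `w` (`TRi`). `Pola` (`b = 0`, `κ = 1`, `Z = univ`) for fixed `w`: `c2 w w z z = 0`. -/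
def S_K5 : Prop := ∀ (m k : ℕ) (F : Fin k → Matrix (Fin m) (Fin m) ℂ)
  (Om : Set (Fin k → ℝ)), Sie F Om → Hyp (SD F Om) →
  ∀ c2 : Cn k →ₗ[ℂ] Cn k →ₗ[ℂ] Cn m →ₗ[ℂ] Cn m →ₗ[ℂ] Cn m, Cpl (SD F Om) (f5 c2) →
  ∀ w z, c2 w w z z = 0

/-- **K4.** There are no fields of weight `4`. Uses `BR`, `LamP`.

PROOF. `h = hf F`; write `x` for `cx x`, and `u = rev (h z z)`, so `h z z = cx u` (`hf_self`). `BR` (second part): `Re h(M2 w w z, z) = 0` for `w = x + i u`; `M2 w w = M2 x x + 2 i M2 x u - M2 u u`. This is a polynomial in the real vector `x`; replacing `x` by `t x` and comparing the coefficients of `t², t`: (i) `Re h(M2 x x z, z) = 0`, (ii') `Im h(M2 x u z, z) = 0`. Polarizing (i): `Re h(M2 x y z, z) = 0` for all real `x`, `y`, all `z`. So (ii) `h(M2 x u z, z) = 0`, where `u = rev (h z z)`. `BR` (first part) for `l ∈ Lam Om`, `y0 ∈ closure Om`, `dt l y0 = 0`, `w = x + i (y0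 + u)`: the coefficient of `t` gives `l · Im h(M2 x (y0 + u) z, z) = 0`, with (ii): (iii) `l · Im h(M2 x y0 z, z) = 0`. Let `x ∈ Om`, `M = M2 x x : Cn m → Cn m`. CLAIM: `M` has no eigenvalue `μ ≠ 0`. Let `M z = μ z`, `z ≠ 0`, `μ ≠ 0`. By (i) `Re (μ u) = 0` for the real vector `u ≠ 0`, so `μ = i τ`, `τ` real, `τ ≠ 0`. `u ∈ closure Om`; `LamP` (5): `y0 = x - s0 u`, `l`. (iii) and (ii): `0 = l · Im h(M2 x x z, z) - s0 l · Im h(M2 x u z, z) = τ (l · u) ≠ 0`, a contradiction. So all eigenvalues of `M` are `0`, `M` is nilpotent (`ℂ` algebraically closed, finite dimension). (i) for `M` (polarized in `z`, with `z + z'`, `z + i z'`): `h(M z, z') = -h(z, M z')`. If `M ≠ 0` let `n ≥ 1` be maximal with `M^n ≠ 0`; then `M^(2n) = 0`, `h(M^n z, M^n z) = ± h(z, M^(2n) z) = 0`, so `M^n z = 0` for all `z`: a contradiction. So `M2 x x = 0` for `x ∈ Om`; for fixed `z` the polynomial `w ↦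 M2 w w z` vanishes on the real open set `Om`; so it vanishes (`TRi`, or: `M2 (x + t y) (x + t y) = 0` for small real `t` gives `M2 y y = 0` for all real `y`, polarize and use complex linearity). -/
def S_K4 : Prop := ∀ (m k : ℕ) (F : Fin k → Matrix (Fin m) (Fin m) ℂ)
  (Om : Set (Fin k → ℝ)), Sie F Om → Hyp (SD F Om) →
  ∀ M2 : Cn k →ₗ[ℂ] Cn k →ₗ[ℂ] Cn m →ₗ[ℂ] Cn m, (∀ u v, M2 u v = M2 v u) →
  Cpl (SD F Om) (f4 M2) → ∀ w z, M2 w w z = 0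

/-- **K3.** There are no fields of weight `3`. Uses `BR`, `LamP`, `TRi`, `Pola`.

PROOF. `h = hf F`; write `x` for `cx x` and `u = rev (h z z)`, `h z z = cx u`. `BR` for `w = x + i u` says `Im [β2 w w z - 2 i h(c1 w z z + a2 w w, z)] = 0`. Replace `z` by `ζ z`, `‖ζ‖ = 1` (`w` unchanged): `Re (ζ [-i β2 w w z - 2 h(c1 w z z, z) - 2 h(z, a2 w w)]) = 0` (for the last term: `Re h(a2 w w, ζ z) = Re (ζ h(z, a2 w w))`). With `ζ = 1, i`: (E) `β2 w w z - 2 i h(c1 w z z, z) - 2 i h(z, a2 w w) = 0`. Expand in the real vector `x` (replace `x` by `t x`); note `h(z, a2 w w) = h(z, a2 x x) - 2 i h(z, a2 x u) - h(z, a2 u u)`. Degree 2: (i) `β2 x x z = 2 i h(z, a2 x x)`, polarized `β2 x y z = 2 i h(z, a2 x y)` for real `x`, `y`. Degree 1: `2 i β2 x u z - 2 i h(c1 x z z, z) - 4 h(z, a2 x u) = 0`, with (i): (ii) `h(c1 x z z, z) = 4 i h(z, a2 x u)`. Degree 0: `-β2 u u z + 2 h(c1 u z z,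 z) + 2 i h(z, a2 u u) = 0`, with (i), (ii): (iii) `h(z, a2 u u) = 0` for `u = rev (h z z)`. The same with `l ∈ Lam Om`, `y0 ∈ closure Om`, `dt l y0 = 0`, `w = x + i (y0 + u)` (first part of `BR`): `l · [β2 w w z - 2 i h(c1 w z z, z) - 2 i h(z, a2 w w)] = 0`; degree 1 in `x`: `l · [2 i β2 x (y0 + u) z - 2 i h(c1 x z z, z) - 4 h(z, a2 x (y0 + u))] = 0`, with (i), (ii): (iv) `l · h(z, a2 x y0) = 0` for all real `x` and all `z`. Let `x ∈ Om`, `v = a2 x x`; suppose `v ≠ 0`; `u = rev (h v v) ≠ 0` (`Sie.pd`), in `closure Om`; `LamP` (5): `y0 = x - s0 u`, `l`, `l · u > 0`. (iv) with `x := u`, `z = v`: `l · h(v, a2 u x) = s0 l · h(v, a2 u u) = 0` by (iii). (iv) with `x := x`, `z = v`: `l · h(v, a2 x x) = s0 l · h(v, a2 x u) = 0`; but this is `l · h(v, v) = l · u > 0`: a contradiction. So `a2 x x = 0` for `x ∈ Om`, so `a2 w w = 0` for all `w` (`TRi`); by polarization `a2 = 0`;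 (i): `β2 x x z = 0` for real `x`, so for all `w`; (ii): `h(c1 x z z, z) = 0` for real `x`, so (linearity in `x`) for all `w`, and `Pola` gives `c1 w z z = 0`. -/
def S_K3 : Prop := ∀ (m k : ℕ) (F : Fin k → Matrix (Fin m) (Fin m) ℂ)
  (Om : Set (Fin k → ℝ)), Sie F Om → Hyp (SD F Om) →
  ∀ (c1 : Cn k →ₗ[ℂ] Cn m →ₗ[ℂ] Cn m →ₗ[ℂ] Cn m) (a2 : Cn k →ₗ[ℂ] Cn k →ₗ[ℂ] Cn m)
    (β2 : Cn k →ₗ[ℂ] Cn k →ₗ[ℂ] Cn m →ₗ[ℂ] Cn k), (∀ u v, a2 u v = a2 v u) →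
  (∀ u v, β2 u v = β2 v u) → Cpl (SD F Om) (f3 c1 a2 β2) →
  ∀ w z, c1 w z z = 0 ∧ a2 w w = 0 ∧ β2 w w z = 0

/-- The homogeneous fields of the weights `-2, ..., 2` (the index `i` is the weight plus two). -/
def GT {m k : ℕ} (i : Fin 5) (Y : Vs m k → Vs m k) : Prop :=
  match i with
  | 0 => ∃ b0 : Cn k, Y = fm2 b0
  | 1 => ∃ (a0 : Cn m) (β0 : Cn m →ₗ[ℂ] Cn k), Y = fm1 a0 β0
  | 2 => ∃ (M0 : Cn m →ₗ[ℂ] Cn m) (b1 : Cn k →ₗ[ℂ] Cn k), Y = f0 M0 b1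
  | 3 => ∃ (c0 : Cn m →ₗ[ℂ] Cn m →ₗ[ℂ] Cn m) (a1 : Cn k →ₗ[ℂ] Cn m)
      (β1 : Cn k →ₗ[ℂ] Cn m →ₗ[ℂ] Cn k), Y = f1 c0 a1 β1
  | 4 => ∃ (M1 : Cn k →ₗ[ℂ] Cn m →ₗ[ℂ] Cn m) (b2 : Cn k →ₗ[ℂ] Cn k →ₗ[ℂ] Cn k),
      (∀ u v, b2 u v = b2 v u) ∧ Y = f2 M1 b2

/-- **Gr.** The grading. Uses `PolX`, `Wts`, `K5`, `K4`, `K3`.

PROOF. Direct. -/
def S_Gr : Prop := ∀ (m k : ℕ) (F : Fin k → Matrix (Fin m) (Fin m) ℂ)
  (Om : Set (Fin k → ℝ)), Sie F Om → Hyp (SD F Om) → ∀ X : Vs m k → Vs m k, Cpl (SD F Om) X →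
  ∃ Y : Fin 5 → Vs m k → Vs m k, (∀ i, GT i (Y i) ∧ Cpl (SD F Om) (Y i)) ∧
    ∀ p ∈ SD F Om, X p = ∑ i, Y i p

/-- **Rela.** Relations for the coefficients. Uses `BR`.

PROOF. `h = hf F`, `u = rev (h z z)`, second part of `BR`, `w = x + i u`. Weight `-2`: `Im b0 = 0`. Weight `-1`: `Im [β0 z - 2 i h(a0, z)] = 0` for all `z`; replace `z` by `i z` as well: `Re (ζ [-i β0 z - 2 h(z, a0)]) = 0` for `ζ = 1, i`: `β0 z = 2 i h(z, a0)`. Weight `1`: as in `K3` `Re (ζ [-i β1 w z - 2 h(c0 z z, z) - 2 h(z, a1 w)]) = 0`, so the bracket is `0`, and the terms of degree 1 in `x` give `β1 x z = 2 i h(z, a1 x)`. Weight `2`: `Im [b2 w w - 2 i h(M1 w z, z)] = 0` with `z = 0`: `Im b2 x x = 0`. -/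
def S_Rela : Prop := ∀ (m k : ℕ) (F : Fin k → Matrix (Fin m) (Fin m) ℂ)
  (Om : Set (Fin k → ℝ)), Sie F Om → Hyp (SD F Om) →
  (∀ b0 : Cn k, Cpl (SD F Om) (fm2 (m := m) b0) → ∃ r : Fin k → ℝ, b0 = cx r) ∧
  (∀ (a0 : Cn m) (β0 : Cn m →ₗ[ℂ] Cn k), Cpl (SD F Om) (fm1 a0 β0) →
    ∀ z, β0 z = (2 * Complex.I) • hf F z a0) ∧
  (∀ (c0 : Cn m →ₗ[ℂ] Cn m →ₗ[ℂ] Cn m) (a1 : Cn k →ₗ[ℂ] Cn m)
    (β1 : Cn k →ₗ[ℂ] Cn m →ₗ[ℂ] Cn k), Cpl (SD F Om) (f1 c0 a1 β1) →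
    ∀ (x : Fin k → ℝ) z, β1 (cx x) z = (2 * Complex.I) • hf F z (a1 (cx x))) ∧
  ∀ (M1 : Cn k →ₗ[ℂ] Cn m →ₗ[ℂ] Cn m) (b2 : Cn k →ₗ[ℂ] Cn k →ₗ[ℂ] Cn k),
    Cpl (SD F Om) (f2 M1 b2) → ∀ x : Fin k → ℝ, ∃ r : Fin k → ℝ, b2 (cx x) (cx x) = cx r

/-- **Inj1.** Fields of weight `1` are determined by `a1 e`. Uses `Rela`, `Iso`, `LA1`, `CUf`.

PROOF. `p = (0, i e) ∈ D`, `X = f1 c0 a1 β1`, `X p = (i a1 e, 0) = 0`. `fderiv X p (z', w') = (a1 w', i β1 e z')` and `β1 e z' = 2 i h(z', a1 e) = 0` (`Rela`), so the derivative `N` satisfies `N * N = 0`; `exp (t N)` is bounded (`Iso`), so `N = 0` (`LA1`), and `X = 0` on `D` by `CUf`; `D` is open and nonempty, `X` is a polynomial (entire), so `X = 0` (identity theorem). -/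
def S_Inj1 : Prop := ∀ (m k : ℕ) (F : Fin k → Matrix (Fin m) (Fin m) ℂ)
  (Om : Set (Fin k → ℝ)), Sie F Om → Hyp (SD F Om) → ∀ e ∈ Om,
  ∀ (c0 : Cn m →ₗ[ℂ] Cn m →ₗ[ℂ] Cn m) (a1 : Cn k →ₗ[ℂ] Cn m)
    (β1 : Cn k →ₗ[ℂ] Cn m →ₗ[ℂ] Cn k), Cpl (SD F Om) (f1 c0 a1 β1) → a1 (cx e) = 0 →
    ∀ p, f1 c0 a1 β1 p = 0

/-- **Inj2.** Fields of weight `2` are determined by `b2 e e`. Uses `Hei`, `AdC`, `Lin`, `Iso`, `LA1`, `CUf`.

PROOF. `X = f2 M1 b2`, `p = (0, i e)`. The transport of `X` by the translation `(z, w) ↦ (z, w - cx e)` (`Hei`, `AdC`) is `(z, w) ↦ X (z, w + cx e) = X (z, w) + (M1 e z, 2 b2 e w) + (0, b2 e e)`. So `L = (M1 e z, 2 b2 e w)` is complete (`Lin`; `b2 e e = 0`); it is linear, `L p = (0, 2 i b2 e e) = 0`, so `exp (t L)` is bounded (`Iso`). `X p = (0, -b2 e e) = 0` and `fderiv X p (z', w') = (i M1 e z', 2 i b2 e w') = i L (z', w')`, so `exp (t i L)` is bounded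 (`Iso`). `LA1`: `L = 0`, so `fderiv X p = 0`, `X = 0` on `D` (`CUf`), and everywhere (identity theorem). -/
def S_Inj2 : Prop := ∀ (m k : ℕ) (F : Fin k → Matrix (Fin m) (Fin m) ℂ)
  (Om : Set (Fin k → ℝ)), Sie F Om → Hyp (SD F Om) → ∀ e ∈ Om,
  ∀ (M1 : Cn k →ₗ[ℂ] Cn m →ₗ[ℂ] Cn m) (b2 : Cn k →ₗ[ℂ] Cn k →ₗ[ℂ] Cn k),
    (∀ u v, b2 u v = b2 v u) → Cpl (SD F Om) (f2 M1 b2) → b2 (cx e) (cx e) = 0 →
    ∀ p, f2 M1 b2 p = 0

/-- **FamE.** A graded basis. Uses `Gr`, `Rela`, `Inj1`, `Inj2`, `Hei`, `Lin`.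

PROOF. For `i : Fin 5` let `g i` be the set of the maps `Y : Vs m k → Vs m k` with `GT i Y` and `Cpl D Y`: a real subspace of the space of all maps (`Lin`; `GT i` is closed under sums and real multiples), contained in a finite dimensional space (the maps of the form `fm2`, ..., `f2` depend linearly on finitely many complex coefficients), so finite dimensional over `ℝ`. Choose a basis of each `g i` and number the union by `Fin d`; `wt a` = the index `i` of `X a`. INDEPENDENCE: let `ev X ξ = 0` on `D`; it is `∑ i, Y i` with `Y i ∈ g i`. `D` is invariant under `(z, w) ↦ (t z, t² w)`, `t > 0`; `Y i (t z, t² w) = (t^(i-1) A_i, t^i B_i)` (for `i = 0` the first component is `0`). So for `p ∈ D`, `∑_(i ≥ 1) t^(i-1) A_i(p) = 0` and `∑ i, t^i B_i (p) = 0` for all `t > 0`: `Y i p = 0`; `Y i` is entire, so `Y i = 0` everywhere, and the coefficients are `0` (basis of `g i`). SPAN: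 `Gr`. COUNTING: `#{wt = i} = dim g i`. `g 0`: `fm2 (cx r)`, `r : Fin k → ℝ` (`Hei`, `Rela`): dimension `k`. `g 1`: `Rela` and `Hei` (`β0 z = 2 i h(z, a0)` is linear in `z`): isomorphic to `Cn m` as a real space, dimension `2 m`. `g 3`: fix `e ∈ Om`; `Y ↦ (Y (0, cx e)).1 = a1 e` is a real linear map to `Cn m`, injective by `Inj1`: dimension at most `2 m`. `g 4`: `Y ↦ (Y (0, cx e)).2 = b2 e e` is a real vector (`Rela`), injective by `Inj2`: dimension at most `k`, and if it is `k` then the map to `Fin k → ℝ` is onto, for every `e ∈ Om`; take a preimage of `e`. -/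
def S_FamE : Prop := ∀ (m k : ℕ) (F : Fin k → Matrix (Fin m) (Fin m) ℂ)
  (Om : Set (Fin k → ℝ)), Sie F Om → Hyp (SD F Om) →
  ∃ (d : ℕ) (X : Fin d → Vs m k → Vs m k) (wt : Fin d → Fin 5), Fam (SD F Om) X ∧
    (∀ a, GT (wt a) (X a)) ∧
    (Finset.univ.filter fun a => wt a = 0).card = k ∧
    (Finset.univ.filter fun a => wt a = 1).card = 2 * m ∧
    (Finset.univ.filter fun a => wt a = 3).card ≤ 2 * m ∧
    (Finset.univ.filter fun a => wt a = 4).card ≤ k ∧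
    ((Finset.univ.filter fun a => wt a = 4).card = k → ∀ e ∈ Om,
      ∃ (M1 : Cn k →ₗ[ℂ] Cn m →ₗ[ℂ] Cn m) (b2 : Cn k →ₗ[ℂ] Cn k →ₗ[ℂ] Cn k),
        (∀ u v, b2 u v = b2 v u) ∧ Cpl (SD F Om) (f2 M1 b2) ∧ b2 (cx e) (cx e) = cx e)

/-- **E2.** The fields of weight `2` exist. Uses `FamE`, `Str`, `Uni`, `Hei`.

PROOF. `d`, `X`, `wt` from `FamE`, `c` from `Str`. The Euler field `E (z, w) = (z, 2 w)` is complete (`Hei`), so `E = ev X ε` on `D`. For a homogeneous field `Y` with `GT i Y`: `Br E Y = (i - 2) • Y` (for a monomial of degree `(s, t)` in `(z, w)`: `fderiv A (E) = (s + 2 t) A`; `Br E Y = (fderiv A (E) - A, fderiv B (E) - 2 B)`). On the other hand, on `D`: `Br E (X a) = ∑ b, ε b • Br (X b) (X a) = ev X (fun e => ∑ b, ε b * c b a e)` (derivatives at the points of the open set `D`, where `E = ev X ε`). `Fam.ind`: `∑ b, ε b * c b a e = (wt a - 2) * (1 if e = a, else 0)`.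 Take `e = a` and sum over `a`: `∑ a, (wt a - 2) = ∑ b, ε b * ∑ a, c b a a = 0` (`Uni`). So `-2 k - 2 m + #{wt = 3} + 2 #{wt = 4} = 0`; as `#{wt = 3} ≤ 2 m` and `#{wt = 4} ≤ k`, equality holds: `#{wt = 4} = k`. -/
def S_E2 : Prop := ∀ (m k : ℕ) (F : Fin k → Matrix (Fin m) (Fin m) ℂ)
  (Om : Set (Fin k → ℝ)), Sie F Om → Hyp (SD F Om) → ∀ (Γ : Type) [Group Γ]
  (ρ : Γ → Vs m k → Vs m k), GAct (SD F Om) ρ → ∀ e ∈ Om,
  ∃ (M1 : Cn k →ₗ[ℂ] Cn m →ₗ[ℂ] Cn m) (b2 : Cn k →ₗ[ℂ] Cn k →ₗ[ℂ] Cn k),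
    (∀ u v, b2 u v = b2 v u) ∧ Cpl (SD F Om) (f2 M1 b2) ∧ b2 (cx e) (cx e) = cx e

end KVB
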