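import Pool.Agent.Lib.KV.B.SpecA

/-!
# KV (MP_64edc4_ag), part B, block U: the Lie algebra of the complete fields is unimodular

If a group acts cocompactly and properly discontinuously on the domain then the Lie algebra of the
complete fields is unimodular. The proof avoids Haar measures: with the help of an equivariant field
`f` of vectors of the Lie algebra one integrates by parts twice over the domain.
-/

set_option autoImplicit false

open Set Filter Topology Metric MeasureTheory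

namespace KVB

open KP

section defs

variable {V : Type} [NormedAddCommGroup V] [NormedSpace ℂ V]

/-- The vector field with the coordinates `ξ`. -/
noncomputable def ev {d : ℕ} (X : Fin d → V → V) (ξ : Fin d → ℝ) : V → V :=
  fun x => ∑ a, (ξ a : ℂ) • X a x

/-- The fields `X a` are a basis of the real vector space of the complete fields on `D`. -/
structure Fam {d : ℕ} (D : Set V) (X : Fin d → V → V) : Prop where
  cpl : ∀ a, Cpl D (X a)
  ind : ∀ ξ : Fin d → ℝ, (∀ x ∈ D, ev X ξ x = 0) → ξ = 0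
  span : ∀ Y : V → V, Cpl D Y → ∃ ξ : Fin d → ℝ, ∀ x ∈ D, Y x = ev X ξ x

/-- `c` are the structure constants. -/
def SC {d : ℕ} (D : Set V) (X : Fin d → V → V) (c : Fin d → Fin d → Fin d → ℝ) : Prop :=
  ∀ a b, ∀ x ∈ D, Br (X a) (X b) x = ev X (c a b) x

/-- The matrix `M` describes the transport of the fields by `g`. -/
def Rep {d : ℕ} (D : Set V) (X : Fin d → V → V) (g : V → V)
    (M : Matrix (Fin d) (Fin d) ℝ) : Prop :=
  ∀ ξ : Fin d → ℝ, ∀ x ∈ D, fderiv ℂ g x (ev X ξ x) = ev X (M.mulVec ξ) (g x)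

/-- The matrix of the adjoint map. -/
def adm {d : ℕ} (c : Fin d → Fin d → Fin d → ℝ) (ξ : Fin d → ℝ) :
    Matrix (Fin d) (Fin d) ℝ := fun e b => ∑ a, ξ a * c a b e

/-- The trace of the adjoint map. -/
def tau {d : ℕ} (c : Fin d → Fin d → Fin d → ℝ) (ξ : Fin d → ℝ) : ℝ := ∑ a, ξ a * ∑ b, c a b b

end defs

/-- **Evl.** The coordinates of a field are determined by finitely many values.

PROOF. `E = Fin d → ℝ`. Consider in the dual space of `E` the functionals `λ ξ = l (ev X ξ x)`, `x ∈ D`, `l : V →L[ℝ] ℝ` (linear: `ev X` is real linear in `ξ`), and let `W` be their span. If `ξ ∈ E` is killed by `W` then `l (ev X ξ x) = 0` for all `l`, so `ev X ξ x = 0` for all `x ∈ D` (the dual space separates points), so `ξ = 0`. Hence `W` is the whole dual space (finite dimension: `Submodule.exists_dual_map_eq_bot_of_lt_top`, or the dual coannihilator and reflexivity). So each coordinate functional `ξ ↦ ξ a` is a finite linear combination of such functionals;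 take the (finite) union over `a` of the pairs `(x, l)` which occur and number it by `Fin p`. -/
def S_Evl : Prop := ∀ (V : Type) [NormedAddCommGroup V] [NormedSpace ℂ V]
  [FiniteDimensional ℂ V] (D : Set V) (d : ℕ) (X : Fin d → V → V),
    (∀ ξ : Fin d → ℝ, (∀ x ∈ D, ev X ξ x = 0) → ξ = 0) →
    ∃ (p : ℕ) (pts : Fin p → V) (l : Fin p → V →L[ℝ] ℝ) (κ : Fin d → Fin p → ℝ),
      (∀ i, pts i ∈ D) ∧ ∀ (ξ : Fin d → ℝ) (a : Fin d), ξ a = ∑ i, κ a i * l i (ev X ξ (pts i))

/-- **EvC.** All real combinations of a family are complete. Uses `Lin`.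

PROOF. `Lin`: real multiples and sums; the zero field is complete (`φ t x = x`); induction on the finite index set (`Finset.sum`), `Cpl.congr`. -/
def S_EvC : Prop := ∀ (V : Type) [NormedAddCommGroup V] [NormedSpace ℂ V]
  [FiniteDimensional ℂ V] (D : Set V), Hyp D → ∀ (d : ℕ) (X : Fin d → V → V),
    (∀ a, Cpl D (X a)) → ∀ ξ : Fin d → ℝ, Cpl D (ev X ξ)

/-- **Str.** The complete fields form a Lie algebra. Uses `Evl`, `AdC`, `AdD`.

PROOF. Fix `a`, `b`; let `φ` be the flow of `X a`. For every `s` the field `Ad (φ s) (φ (-s)) (X b)` is complete (`AdC`, `Flow.aut`), so it is on `D` equal to `ev X (ξ s)`, `ξ s : Fin d → ℝ` (`Fam.span`). By `Evl`: `ξ s e = ∑ i, κ e i * l i (Ad (φ s) (φ (-s)) (X b) (pts i))`; by `AdD` each term has at `s = 0` a derivative, so `ξ` has at `0` the derivative `η` with `η e = ∑ i, κ e i * l i (-(Br (X a) (X b) (pts i)))`. For every `x ∈ D` the function `s ↦ ev X (ξ s) x = Ad (φ s) (φ (-s)) (X b) x` has at `0` on the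 one hand the derivative `ev X η x` (linearity), on the other hand `-(Br (X a) (X b) x)` (`AdD`). So `c a b = -η`. -/
def S_Str : Prop := ∀ (V : Type) [NormedAddCommGroup V] [NormedSpace ℂ V]
  [FiniteDimensional ℂ V] (D : Set V), Hyp D → ∀ (d : ℕ) (X : Fin d → V → V), Fam D X →
    ∃ c : Fin d → Fin d → Fin d → ℝ, SC D X c

/-- **Rep1.** The representation of the automorphisms on the Lie algebra. Uses `AdC`.

PROOF. Existence: `Ad g h (X a)` is complete (`AdC`), so it is `ev X (m a)` on `D`; at the point `g x`, `x ∈ D`: `fderiv g x (X a x) = ev X (m a) (g x)` (`h (g x) = x`). Let `M e a = m a e`; then `fderiv g x (ev X ξ x) = ∑ a, ξ a • ev X (m a) (g x) = ev X (M.mulVec ξ) (g x)`. Uniqueness: `ev X (M.mulVec ξ)` and `ev X (M'.mulVec ξ)` agree on `g '' D = D`, so `M.mulVec ξ = M'.mulVec ξ` for all `ξ` (`Fam.ind` for the difference). Composition: chain rule on the open set `D`. Inverse: `g ∘ h` is the identity on the open set `D`, so its derivative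 at the points of `D` is the identity, and by the composition rule `ev X ξ x = ev X ((M * M').mulVec ξ) x` for `x ∈ D`; `Fam.ind`. -/
def S_Rep1 : Prop := ∀ (V : Type) [NormedAddCommGroup V] [NormedSpace ℂ V]
  [FiniteDimensional ℂ V] (D : Set V), IsOpen D → ∀ (d : ℕ) (X : Fin d → V → V), Fam D X →
    (∀ g h, Aut2 D g h → ∃ M, Rep D X g M) ∧
    (∀ g h, Aut2 D g h → ∀ M M', Rep D X g M → Rep D X g M' → M = M') ∧
    (∀ g h g' h' M M', Aut2 D g h → Aut2 D g' h' → Rep D X g M → Rep D X g' M' →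
      Rep D X (fun x => g (g' x)) (M * M')) ∧
    ∀ g h M M', Aut2 D g h → Rep D X g M → Rep D X h M' → M * M' = 1

/-- **Rep2.** The derivative of the representation along a flow. Uses `Evl`, `AdD`, `Rep1`.

PROOF. `M s` from `Rep1` (`Flow.aut`). `M 0 = 1`: `φ 0` is the identity on the open set `D`, so `ev X ξ x = ev X ((M 0).mulVec ξ) x`, `Fam.ind`. For the basis vector `e_b` (`Pi.single b 1`) and `y ∈ D` (apply `Rep` at `x = φ (-s) y`): `ev X ((M s).mulVec e_b) y = Ad (φ s) (φ (-s)) (X b) y`. By `Evl`: `M s e b = ∑ i, κ e i * l i (Ad (φ s) (φ (-s)) (X b) (pts i))`, which has at `0` the derivative `-∑ i, κ e i * l i (Br (ev X ξ) (X b) (pts i))` (`AdD`). On `D`: `Br (ev X ξ) (X b) = ∑ a, ξ a • Br (X a) (X b) = ∑ a, ξ a • ev X (c a b) = ev X (fun e => adm c ξ e b)` (the fields are differentiable at the points of `D`), and `Evl` again gives the value `-(adm c ξ e b)`. -/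
def S_Rep2 : Prop := ∀ (V : Type) [NormedAddCommGroup V] [NormedSpace ℂ V]
  [FiniteDimensional ℂ V] (D : Set V), Hyp D → ∀ (d : ℕ) (X : Fin d → V → V), Fam D X →
    ∀ c, SC D X c → ∀ (ξ : Fin d → ℝ) (φ : ℝ → V → V), Flow D (ev X ξ) φ →
    ∃ M : ℝ → Matrix (Fin d) (Fin d) ℝ, (∀ s, Rep D X (φ s) (M s)) ∧ M 0 = 1 ∧
      ∀ e b, HasDerivAt (fun s => M s e b) (-(adm c ξ e b)) 0

/-- **TauI.** The trace form is invariant. Uses `EvC`, `Rep1`, `Rep2`.

PROOF. Let `M'` be the matrix of `h`: `M * M' = M' * M = 1` (`Rep1`). Let `φ` be the flow of `ev X ξ` (`EvC`), `A s` its matrices (`Rep2`): `A' (0) = -(adm c ξ)`. `ψ s x = g (φ s (h x))` is a flow on `D` of the field `ev X (M.mulVec ξ)`: its derivative at `t` is `fderiv g (φ t (h x)) (ev X ξ (φ t (h x))) = ev X (M.mulVec ξ) (ψ t x)`. Let `B s` be its matrices (`Rep2`): `B' (0) = -(adm c (M.mulVec ξ))`. By `Rep1` (composition, uniqueness) `B s = M * A s * M'`. So `adm c (M.mulVec ξ) = M * adm c ξ *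 M'`, and the traces agree (`Matrix.trace_mul_comm`); `tau c ξ = Matrix.trace (adm c ξ)`. -/
def S_TauI : Prop := ∀ (V : Type) [NormedAddCommGroup V] [NormedSpace ℂ V]
  [FiniteDimensional ℂ V] (D : Set V), Hyp D → ∀ (d : ℕ) (X : Fin d → V → V), Fam D X →
    ∀ c, SC D X c → ∀ g h, Aut2 D g h → ∀ M, Rep D X g M → ∀ ξ, tau c (M.mulVec ξ) = tau c ξ

/-- **MsI.** The measure with the density `dens` is invariant. Uses `DnB`.

PROOF. `MeasureTheory.integral_image_eq_integral_abs_det_fderiv_smul` for `s = D` (open, so measurable), the map `g` (injective on `D`), its derivative `(fderiv ℂ g x).restrictScalars ℝ` (`HasFDerivAt.restrictScalars`), `g '' D = D`, and the function `fun y => u y * dens D y`: `∫_D u * dens = ∫_D rdet (fderiv g x) * (u (g x) * dens D (g x))`, and `dens D (g x) * rdet (fderiv g x) = dens D x` on `D` (`DnB`; `setIntegral_congr_fun`). -/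
def S_MsI : Prop := ∀ (V : Type) [NormedAddCommGroup V] [NormedSpace ℂ V]
  [FiniteDimensional ℂ V] [MeasurableSpace V] [BorelSpace V] (μ : Measure V)
  [μ.IsAddHaarMeasure] (D : Set V), Hyp D → ∀ g h, Aut2 D g h → ∀ u : V → ℝ,
    ∫ x in D, u (g x) * dens D x ∂μ = ∫ x in D, u x * dens D x ∂μ

/-- **Nrm.** An invariant continuous field of norms on the Lie algebra. Uses `CdB`, `CnB`, `CnP`.

PROOF. `r0` from `Hyp.bc`. `N x ξ = sSup {cn D y (ev X ξ y) * max 0 (r0 - cd D x y) | y ∈ D}`. (1) Let `Q ⊆ D` be compact, `Q'` from `bc`. For `x ∈ Q` only `y ∈ Q'` contribute (the other terms are `0`), and `cn D y (ev X ξ y) ≤ C ‖ξ‖` on `Q'` (`CnB`: `cn y v ≤ ‖v‖ / r` with `r` uniform on `Q'`; the `X a` are continuous, so bounded on `Q'`). So the supremum is finite, `0 ≤ N x ξ ≤ C r0 ‖ξ‖` for `x ∈ Q`. Seminorm properties: `CnB`, linearity of `ev X` in `ξ` (for `t = 0` both sides are `0`; `Real.sSup` and multiplication by `|t|`). (2) `|N x ξ - N x' ξ| ≤ C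 ‖ξ‖ cd x x'` for `x, x' ∈ Q` (termwise: `|max 0 (r0 - cd x y) - max 0 (r0 - cd x' y)| ≤ cd x x'`, and both vanish for `y ∉ Q'`), and `|N x ξ - N x η| ≤ N x (ξ - η) ≤ C r0 ‖ξ - η‖`; `cd x x' → 0` as `x' → x` (`CdB`); so `N` is continuous at `(x, ξ)`, `x ∈ D` (take for `Q` a closed ball around `x`). (3) Positivity: if `N x ξ = 0` then `cn D y (ev X ξ y) = 0` for all `y ∈ D` with `cd x y < r0`, in particular (`CdB`) for all `y` in a ball around `x`, so `ev X ξ y = 0` there (`CnP` for `Q = {y}`), so `ev X ξ = 0` on `D` by the identity theorem (`AnalyticOnNhd.eqOn_zero_of_preconnected_of_eventuallyEq_zero`, `Osgood.analyticOnNhd`, `Hyp.conn`), and `ξ = 0` (`Fam.ind`). (4) Invariance: `y = g y'` runs through `D`; `ev X (M.mulVec ξ) (g y') = fderiv g y' (ev X ξ y')`, `cn D (g y') (fderiv g y' v) = cn D y' v` (`CnB`), `cd D (g x) (g y') = cd D x y'` (`CdB` (iii) for `g` and `h`): the two sets of values are equal. -/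
def S_Nrm : Prop := ∀ (V : Type) [NormedAddCommGroup V] [NormedSpace ℂ V]
  [FiniteDimensional ℂ V] (D : Set V), Hyp D → ∀ (d : ℕ) (X : Fin d → V → V), Fam D X →
    ∃ N : V → (Fin d → ℝ) → ℝ,
      ContinuousOn (fun p : V × (Fin d → ℝ) => N p.1 p.2) (D ×ˢ univ) ∧
      (∀ x ∈ D, (∀ ξ η, N x (ξ + η) ≤ N x ξ + N x η) ∧
        (∀ (t : ℝ) ξ, N x (t • ξ) = |t| * N x ξ) ∧ ∀ ξ, ξ ≠ 0 → 0 < N x ξ) ∧
      ∀ g h M, Aut2 D g h → Rep D X g M → ∀ x ∈ D, ∀ ξ, N (g x) (M.mulVec ξ) = N x ξ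

/-- **Bar.** A field of norms and an invariant linear form give an equivariant field of vectors.

PROOF. `E = Fin d → ℝ` with the Lebesgue measure, `B x = {ξ | N x ξ ≤ 1}`, for `x ∈ D` `f x = (volume (B x)).toReal⁻¹ • ∫ ξ in B x, τ ξ • ξ`, and `f x = 0` for `x ∉ D`. (1) For compact `Q ⊆ D`: `N` is continuous and positive on `Q × {‖ξ‖ = 1}`, so `c ‖ξ‖ ≤ N x ξ ≤ C ‖ξ‖` for `x ∈ Q` with `0 < c`, `C` (homogeneity; `d = 0` cannot occur as `τ ≠ 0`). So `B x` is closed, contains the ball of radius `1 / (C + 1)` and is in the ball of radius `1 / c`: `0 < volume (B x) < ∞`, and `‖f x‖ ≤ ‖τ‖ / c²`. (2) Measurability: the set `{(x, ξ) | x ∈ D, N x ξ ≤ 1}` is measurable (relatively closed in the measurable set `D ×ˢ univ`), so `(x, ξ) ↦ indicator * (τ ξ • ξ)` is (strongly) measurable, and so are the parameter integrals (`MeasureTheory.StronglyMeasurable.integral_prod_right`, also for `volume (B x)`: `measurable_measure_prodMk_left`). (3) `τ (f x) = (volume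 (B x)).toReal⁻¹ * ∫_(B x) (τ ξ)²` (`ContinuousLinearMap.integral_comp_comm`), and the integral is positive: the continuous function `τ²` is nonnegative and positive at some point of the interior of `B x` (a small multiple of a vector with `τ ≠ 0`). (4) Equivariance: `M` is injective, `M '' B x = B y`. `integral_image_eq_integral_abs_det_fderiv_smul` for the linear map `M` on the measurable set `B x`: `∫_(B y) τ ξ • ξ = |det M| • ∫_(B x) τ (M ξ) • M ξ = |det M| • M (∫_(B x) τ ξ • ξ)`, and in the same way `volume (B y) = |det M| volume (B x)` (`Measure.addHaar_image_linearMap`). -/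
def S_Bar : Prop := ∀ (V : Type) [NormedAddCommGroup V] [NormedSpace ℂ V]
  [FiniteDimensional ℂ V] [MeasurableSpace V] [BorelSpace V] (D : Set V), IsOpen D →
    ∀ (d : ℕ) (N : V → (Fin d → ℝ) → ℝ),
      ContinuousOn (fun p : V × (Fin d → ℝ) => N p.1 p.2) (D ×ˢ univ) →
      (∀ x ∈ D, (∀ ξ η, N x (ξ + η) ≤ N x ξ + N x η) ∧
        (∀ (t : ℝ) ξ, N x (t • ξ) = |t| * N x ξ) ∧ ∀ ξ, ξ ≠ 0 → 0 < N x ξ) →
    ∀ τ : (Fin d → ℝ) →ₗ[ℝ] ℝ, τ ≠ 0 → ∃ f : V → Fin d → ℝ, Measurable f ∧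
      (∀ Q ⊆ D, IsCompact Q → ∃ C : ℝ, ∀ x ∈ Q, ‖f x‖ ≤ C) ∧ (∀ x ∈ D, 0 < τ (f x)) ∧
      ∀ x ∈ D, ∀ y ∈ D, ∀ M : Matrix (Fin d) (Fin d) ℝ, IsUnit M.det →
        (∀ ξ, τ (M.mulVec ξ) = τ ξ) → (∀ ξ, N y (M.mulVec ξ) = N x ξ) →
        f y = M.mulVec (f x)

/-- The cut-off functions of the integrations. -/
structure Cut {V : Type} [NormedAddCommGroup V] [NormedSpace ℂ V] (D : Set V) (χ : V → ℝ) :
    Prop where
  smooth : ContDiff ℝ 1 χ
  cpt : HasCompactSupport χ
  sub : tsupport χ ⊆ D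
  nonneg : ∀ x, 0 ≤ χ x

/-- **Chi.** A partition of unity by translates of one function.

PROOF. `K` from `GAct.coc`. There is a smooth `ψ : V → ℝ`, `0 ≤ ψ`, compact support `P = tsupport ψ ⊆ D`, `ψ = 1` on `K` (`exists_contDiff_tsupport_subset` for a finite cover, or `exists_smooth_one_nhds_of_subset_interior`/`exists_contMDiff_support_eq`, or a finite sum of bump functions `ContDiffBump`, positive on `K`: positivity on `K` is enough). Local finiteness: for a compact `Q ⊆ D` the set of `γ` with `ρ γ '' Q ∩ P ≠ ∅` is finite (`GAct.pd` for `Q ∪ P`). So `S x = ∑ᶠ γ, ψ (ρ γ x)` is near every point of `D` a finite sum of functions which are `C¹` (the `ρ γ` are holomorphic on the open set `D`, so analytic, `Osgood.analyticOnNhd`, `ContDiffOn ℝ`), `S > 0` on `D` (`GAct.coc`), and `S (ρ γ x) = S x` (`GAct.mul` and reindexing). `χ = ψ / S` on `D`, `0` outside: `C¹` everywhere (it vanishes outside the compact set `P ⊆ D`), and `∑ᶠ γ, χ (ρ γ x) = ∑ᶠ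 γ, ψ (ρ γ x) / S x = 1`. -/
def S_Chi : Prop := ∀ (V : Type) [NormedAddCommGroup V] [NormedSpace ℂ V]
  [FiniteDimensional ℂ V] (D : Set V), IsOpen D → ∀ (Γ : Type) [Group Γ] (ρ : Γ → V → V),
    GAct D ρ → ∃ χ : V → ℝ, Cut D χ ∧
      ∀ x ∈ D, {γ | χ (ρ γ x) ≠ 0}.Finite ∧ ∑ᶠ γ, χ (ρ γ x) = 1

/-- **DInt.** Differentiation under the integral along a flow. Uses `FlB`.

PROOF. `P = tsupport χ`, `Q'` from `FlB` (a) for `Q = P`, `T = 1`: if `|s| ≤ 1` and `x ∈ D`, `χ (φ s x) ≠ 0` then `x = φ (-s) (φ s x) ∈ Q'`. Use `hasDerivAt_integral_of_dominated_loc_of_deriv_le` for the measure `μ.restrict D`, on the ball of radius `1` around `0`, `F s x = χ (φ s x) * w x`, `F' s x = fderiv ℝ χ (φ s x) (X (φ s x)) * w x`. For `x ∈ D` the derivative of `s ↦ χ (φ s x)` is `fderiv ℝ χ (φ s x) (X (φ s x))` (chain rule, `Flow.der`). It vanishes unless `φ s x ∈ P` (the derivative of `χ` vanishes outside of `P`), so unless `x ∈ Q'`, and its norm is at most `C1 = sup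 ‖fderiv ℝ χ‖ * sup_P ‖X‖`. Bound: the indicator function of `Q'` times `C1 C2`, `|w| ≤ C2` on `Q'`; integrable as `μ Q' < ∞`. Measurability: `x ↦ χ (φ s x)` is continuous on `D`. At `s = 0`: `φ 0 x = x` for `x ∈ D`. `F 0` is integrable (bounded with compact support). -/
def S_DInt : Prop := ∀ (V : Type) [NormedAddCommGroup V] [NormedSpace ℂ V]
  [FiniteDimensional ℂ V] [MeasurableSpace V] [BorelSpace V] (μ : Measure V)
  [μ.IsAddHaarMeasure] (D : Set V), Hyp D → ∀ (X : V → V) (φ : ℝ → V → V),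
    DifferentiableOn ℂ X D → Flow D X φ → ∀ χ : V → ℝ, Cut D χ → ∀ w : V → ℝ,
    AEStronglyMeasurable w (μ.restrict D) →
    (∀ Q ⊆ D, IsCompact Q → ∃ C : ℝ, ∀ x ∈ Q, |w x| ≤ C) →
    HasDerivAt (fun s => ∫ x in D, χ (φ s x) * w x ∂μ)
      (∫ x in D, fderiv ℝ χ x (X x) * w x ∂μ) 0

/-- **IntB.** The integral of the derivative of the cut-off function along an invariant field is
zero. Uses `MsI`, `DnB`.

PROOF. `P = tsupport χ`, `G0 = {γ | (ρ γ '' P ∩ P).Nonempty}` finite (`GAct.pd`), closed under inverses (`GAct.mul`, `GAct.one`). If `x ∈ P` then all `γ` with `χ (ρ γ x) ≠ 0` are in `G0`, so `∑ γ ∈ G0, χ (ρ γ x) = 1`. `u x = fderiv ℝ χ x (Y x)` vanishes outside of `P` and is bounded. So `∫_D u * dens = ∑ γ ∈ G0, ∫_D u x * χ (ρ γ x) * dens x` (the integrands are bounded, measurable and supported in `P`, `dens` is continuous, so integrable). By `MsI` for the automorphism `ρ γ⁻¹` (`GAct.aut`) each term is `∫_D u (ρ γ⁻¹ y) * χ (ρ γ (ρ γ⁻¹ y)) *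 dens y = ∫_D u (ρ γ⁻¹ y) * χ y * dens y`, and `u (ρ γ⁻¹ y) = fderiv ℝ χ (ρ γ⁻¹ y) (fderiv ℂ (ρ γ⁻¹) y (Y y)) = fderiv ℝ (χ ∘ ρ γ⁻¹) y (Y y)`. So the sum is `∫_D χ y * (∑ γ ∈ G0, fderiv ℝ (χ ∘ ρ γ⁻¹) y (Y y)) * dens y`. For `χ y ≠ 0`: on the open set `{χ ≠ 0} ⊆ P` the function `∑ γ ∈ G0, χ ∘ ρ γ⁻¹ = ∑ γ ∈ G0, χ ∘ ρ γ` is equal to `1`, so the inner sum is `0`. -/
def S_IntB : Prop := ∀ (V : Type) [NormedAddCommGroup V] [NormedSpace ℂ V]
  [FiniteDimensional ℂ V] [MeasurableSpace V] [BorelSpace V] (μ : Measure V)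
  [μ.IsAddHaarMeasure] (D : Set V), Hyp D → ∀ (Γ : Type) [Group Γ] (ρ : Γ → V → V),
    GAct D ρ → ∀ χ : V → ℝ, Cut D χ →
    (∀ x ∈ D, {γ | χ (ρ γ x) ≠ 0}.Finite ∧ ∑ᶠ γ, χ (ρ γ x) = 1) →
    ∀ Y : V → V, AEStronglyMeasurable Y (μ.restrict D) →
    (∀ Q ⊆ D, IsCompact Q → ∃ C : ℝ, ∀ x ∈ Q, ‖Y x‖ ≤ C) →
    (∀ γ, ∀ x ∈ D, Y (ρ γ x) = fderiv ℂ (ρ γ) x (Y x)) →
    ∫ x in D, fderiv ℝ χ x (Y x) * dens D x ∂μ = 0

/-- **Uni.** The Lie algebra of the complete fields is unimodular. Uses `DnB`, `Rep1`, `Rep2`, `TauI`, `MsI`, `Nrm`, `Bar`, `Chi`, `DInt`, `IntB`.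

PROOF. Suppose that `tau c` (a linear form `τ` on `E = Fin d → ℝ`) is not zero. Give `V` its Borel sets, `μ = Measure.addHaar`. `N` from `Nrm`, `f` from `Bar`: for every automorphism `g` with the matrix `M` (`Rep1`: `M` is invertible; `TauI`: `τ ∘ M = τ`) `f (g x) = M.mulVec (f x)` for `x ∈ D`. `χ` from `Chi`. Put `w e x = f x e * dens D x` (measurable on `D`, bounded on compact sets: `DnB`) and `J e = ∫_D χ x * w e x`. (1) Fix `a`, let `φ` be the flow of `X a = ev X (Pi.single a 1)`, `M s` from `Rep2` for `ξ = Pi.single a 1`: `adm c ξ e b = c a b e`. By `MsI` the number `∫_D χ (φ s x) * f (φ s x) a * dens x` does not depend on `s`; it is `∑ e, M s a e * ∫_D χ (φ s x) * w e x` (integrable: bounded, compact support in `D`). Differentiate at `s = 0` (`DInt`, `Rep2`, `M 0 = 1`): `0 = ∫_D fderiv ℝ χ x (X a x) * w a x - ∑ e, c a e a * J e`. (2) Sum over `a`, with `Y x = ∑ a, (f x a : ℂ) • X a x = ev X (f x) x`: `∫_D fderiv ℝ χ x (Y x) * dens x =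 ∑ e, (∑ a, c a e a) * J e`. By antisymmetry of the bracket and `Fam.ind`, `c a e a = -(c e a a)`, so the right side is `-∑ e, (∑ a, c e a a) * J e = -∫_D χ x * τ (f x) * dens x`. (3) `Y (ρ γ x) = ev X (M.mulVec (f x)) (ρ γ x) = fderiv (ρ γ) x (ev X (f x) x) = fderiv (ρ γ) x (Y x)` for the matrix `M` of `ρ γ` (`GAct.aut`), so the left side is `0` (`IntB`). (4) So `∫_D χ * τ (f x) * dens = 0` with a nonnegative integrand, which is positive on the open set `{χ > 0}`; this set is nonempty (`∑ᶠ γ, χ (ρ γ x) = 1` at a point `x ∈ D`), so it has positive measure: a contradiction. -/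
def S_Uni : Prop := ∀ (V : Type) [NormedAddCommGroup V] [NormedSpace ℂ V]
  [FiniteDimensional ℂ V] (D : Set V), Hyp D → ∀ (Γ : Type) [Group Γ] (ρ : Γ → V → V),
    GAct D ρ → ∀ (d : ℕ) (X : Fin d → V → V), Fam D X → ∀ c, SC D X c →
    ∀ a, ∑ b, c a b b = 0

end KVB
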